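import Mathlib

/-!
The one-dimensional Prékopa–Leindler inequality for finitely many functions and arbitrary weights.
-/

set_option autoImplicit false

open MeasureTheory Set Filter Topology
open scoped ENNReal Pointwise

namespace Pool.Agent.R758.Cov

theorem vol_mul_image (s : ℝ) (hs : 0 ≤ s) (K : Set ℝ) :
    volume ((fun x => s * x) '' K) = ENNReal.ofReal s * volume K := by
  have e2 := Measure.addHaar_image_homothety (volume : Measure ℝ) (0 : ℝ) s K
  have e3 : (fun x => s * x) '' K = (AffineMap.homothety (0 : ℝ) s) '' K := by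
    congr 1
    ext x
    simp [AffineMap.homothety_apply]
  rw [e3, e2]
  simp [abs_of_nonneg hs]

theorem bm2 {A B : Set ℝ} (hA : IsCompact A) (hB : IsCompact B) (hA' : A.Nonempty)
    (hB' : B.Nonempty) : volume A + volume B ≤ volume (A + B) := by
  obtain ⟨a, ha, hamax⟩ := hA.exists_isMaxOn hA' continuousOn_id
  obtain ⟨b, hb, hbmin⟩ := hB.exists_isMinOn hB' continuousOn_id
  have hamax' : ∀ x ∈ A, x ≤ a := fun x hx => hamax hx
  have hbmin' : ∀ y ∈ B, b ≤ y := fun y hy => hbmin hy
  have h1 : ((fun x => x + b) '' A) ∪ ((fun x => x + a) '' B) ⊆ A + B := by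
    rintro z (⟨x, hx, rfl⟩ | ⟨y, hy, rfl⟩)
    · exact Set.add_mem_add hx hb
    · have := Set.add_mem_add ha hy
      rwa [add_comm a y] at this
  have hint : volume (((fun x => x + b) '' A) ∩ ((fun x => x + a) '' B)) = 0 := by
    refine measure_mono_null (t := {a + b}) ?_ (by simp)
    rintro z ⟨⟨x, hx, hxz⟩, ⟨y, hy, hyz⟩⟩
    simp only at hxz hyz
    have e1 := hamax' x hx
    have e2 := hbmin' y hy
    simp only [mem_singleton_iff]
    linarith
  have hm : MeasurableSet ((fun x => x + a) '' B) :=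
    (hB.image (by fun_prop)).measurableSet
  have hu := measure_union_add_inter (μ := (volume : Measure ℝ)) ((fun x => x + b) '' A) hm
  rw [hint, add_zero] at hu
  have v1 : volume ((fun x => x + b) '' A) = volume A := by simp
  have v2 : volume ((fun x => x + a) '' B) = volume B := by simp
  rw [← v1, ← v2, ← hu]
  exact measure_mono h1

theorem bmJ {J : Type*} [DecidableEq J] (s : Finset J) (B : J → Set ℝ)
    (hB : ∀ j, IsCompact (B j)) (hB' : ∀ j, (B j).Nonempty) :
    IsCompact (∑ j ∈ s, B j) ∧ (∑ j ∈ s, B j).Nonempty ∧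
      ∑ j ∈ s, volume (B j) ≤ volume (∑ j ∈ s, B j) := by
  induction s using Finset.induction_on with
  | empty => simp
  | insert i s hi ih =>
    obtain ⟨h1, h2, h3⟩ := ih
    rw [Finset.sum_insert hi, Finset.sum_insert hi]
    refine ⟨(hB i).add h1, (hB' i).add h2, ?_⟩
    calc volume (B i) + ∑ j ∈ s, volume (B j) ≤ volume (B i) + volume (∑ j ∈ s, B j) := by gcongr
      _ ≤ _ := bm2 (hB i) h1 (hB' i) h2

theorem bm_meas {J : Type*} [Fintype J] [DecidableEq J] (A : J → Set ℝ) (C : Set ℝ)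
    (w : J → ℝ) (hw : ∀ j, 0 < w j) (hA : ∀ j, MeasurableSet (A j)) (hA' : ∀ j, (A j).Nonempty)
    (hC : ∀ t : J → ℝ, (∀ j, t j ∈ A j) → ∑ j, w j * t j ∈ C) :
    ∑ j, ENNReal.ofReal (w j) * volume (A j) ≤ volume C := by
  choose p hp using hA'
  have key : ∀ K : J → Set ℝ, (∀ j, K j ⊆ A j) → (∀ j, IsCompact (K j)) →
      ∑ j, ENNReal.ofReal (w j) * volume (K j) ≤ volume C := by
    intro K hKA hK
    have h := bmJ Finset.univ (fun j => (fun x => w j * x) '' (insert (p j) (K j)))
      (fun j => ((hK j).insert (p j)).image (by fun_prop))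
      (fun j => (insert_nonempty _ _).image _)
    calc ∑ j, ENNReal.ofReal (w j) * volume (K j)
        ≤ ∑ j, volume ((fun x => w j * x) '' (insert (p j) (K j))) := by
          gcongr with j _
          rw [vol_mul_image _ (hw j).le]
          gcongr
          exact subset_insert _ _
      _ ≤ volume (∑ j, (fun x => w j * x) '' (insert (p j) (K j))) := h.2.2
      _ ≤ volume C := by
          apply measure_mono
          intro x hx
          rw [Set.mem_finsetSum] at hx
          obtain ⟨g, hg, rfl⟩ := hx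
          choose t ht htg using fun j => hg (i := j) (Finset.mem_univ j)
          have : ∑ j, g j = ∑ j, w j * t j := by
            refine Finset.sum_congr rfl fun j _ => ?_
            exact (htg j).symm
          rw [this]
          exact hC t fun j => insert_subset (hp j) (hKA j) (ht j)
  have hseq : ∀ j, ∃ a : ℕ → ℝ≥0∞, (∀ n, ∃ K, K ⊆ A j ∧ IsCompact K ∧ a n ≤ volume K) ∧
      Tendsto a atTop (𝓝 (volume (A j))) := by
    intro j
    by_cases h0 : volume (A j) = 0
    · refine ⟨fun _ => 0, fun n => ⟨∅, empty_subset _, isCompact_empty, by simp⟩, ?_⟩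
      rw [h0]
      exact tendsto_const_nhds
    · obtain ⟨u, -, hu, hlim⟩ := exists_seq_strictMono_tendsto' (pos_iff_ne_zero.2 h0)
      refine ⟨u, fun n => ?_, hlim⟩
      obtain ⟨K, hKA, hK, hlt⟩ := (hA j).exists_lt_isCompact (hu n).2
      exact ⟨K, hKA, hK, hlt.le⟩
  choose a ha halim using hseq
  have hlim : Tendsto (fun n => ∑ j, ENNReal.ofReal (w j) * a j n) atTop
      (𝓝 (∑ j, ENNReal.ofReal (w j) * volume (A j))) :=
    tendsto_finsetSum _ fun j _ => ENNReal.Tendsto.const_mul (halim j)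
      (Or.inr ENNReal.ofReal_ne_top)
  refine le_of_tendsto' hlim fun n => ?_
  choose K hKA hK hle using fun j => ha j n
  calc ∑ j, ENNReal.ofReal (w j) * a j n ≤ ∑ j, ENNReal.ofReal (w j) * volume (K j) := by
        gcongr with j _
        exact hle j
    _ ≤ volume C := key K hKA hK

/-- The one-dimensional inequality for functions with supremum one. -/
theorem ml_aux {J : Type*} [Fintype J] [DecidableEq J] (w : J → ℝ) (hw : ∀ j, 0 < w j)
    (f : J → ℝ → ℝ) (h : ℝ → ℝ) (hf : ∀ j, Measurable (f j)) (hh : Measurable h)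
    (f0 : ∀ j x, 0 ≤ f j x) (h0 : ∀ x, 0 ≤ h x)
    (f1 : ∀ j x, f j x ≤ 1) (hfs : ∀ j, ∀ s, s < 1 → ∃ x, s < f j x)
    (H : ∀ t : J → ℝ, ∀ s, 0 < s → s < 1 → (∀ j, s < f j (t j)) → s < h (∑ j, w j * t j)) :
    ∑ j, ENNReal.ofReal (w j) * (∫⁻ x, ENNReal.ofReal (f j x)) ≤ ∫⁻ x, ENNReal.ofReal (h x) := by
  have hm : ∀ k : ℝ → ℝ, Measurable (fun s : ℝ => volume {a : ℝ | s < k a}) := fun k =>
    (Antitone.measurable (fun s t hst => measure_mono (fun a (ha : t < k a) =>
      show s < k a from lt_of_le_of_lt hst ha)))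
  have e1 : ∀ j, ∫⁻ x, ENNReal.ofReal (f j x) = ∫⁻ s in Ioi 0, volume {a : ℝ | s < f j a} :=
    fun j => lintegral_eq_lintegral_meas_lt volume (Filter.Eventually.of_forall (f0 j))
      (hf j).aemeasurable
  have e2 : ∫⁻ x, ENNReal.ofReal (h x) = ∫⁻ s in Ioi 0, volume {a : ℝ | s < h a} :=
    lintegral_eq_lintegral_meas_lt volume (Filter.Eventually.of_forall h0) hh.aemeasurable
  rw [e2]
  simp_rw [e1]
  have e3 : ∑ j, ENNReal.ofReal (w j) * ∫⁻ s in Ioi 0, volume {a : ℝ | s < f j a} =
      ∫⁻ s in Ioi 0, ∑ j, ENNReal.ofReal (w j) * volume {a : ℝ | s < f j a} := by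
    rw [lintegral_finsetSum _ fun j _ => (hm (f j)).const_mul _]
    refine Finset.sum_congr rfl fun j _ => ?_
    rw [lintegral_const_mul _ (hm (f j))]
  rw [e3]
  refine setLIntegral_mono' measurableSet_Ioi ?_
  intro s hs
  by_cases hs1 : s < 1
  · refine bm_meas _ _ w hw (fun j => (hf j) measurableSet_Ioi) (fun j => hfs j s hs1) ?_
    intro t ht
    exact H t s hs hs1 ht
  · push Not at hs1
    have e4 : ∀ j, {a : ℝ | s < f j a} = ∅ := by
      intro j
      ext a
      simp only [mem_ofPred_eq, mem_empty_iff_false, iff_false, not_lt]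
      exact (f1 j a).trans hs1
    simp [e4]

theorem geom_le_arith {J : Type*} [Fintype J] (w : J → ℝ) (hw : ∀ j, 0 < w j)
    (hs : ∑ j, w j = 1) (a : J → ℝ≥0∞) :
    ∏ j, a j ^ w j ≤ ∑ j, ENNReal.ofReal (w j) * a j := by
  by_cases htop : ∃ j, a j = ∞
  · obtain ⟨j, hj⟩ := htop
    have : ∑ j, ENNReal.ofReal (w j) * a j = ∞ := by
      rw [ENNReal.sum_eq_top]
      refine ⟨j, Finset.mem_univ j, ?_⟩
      rw [hj, ENNReal.mul_top]
      simp [hw j]
    rw [this]
    exact le_top
  · push Not at htop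
    have h1 := NNReal.geom_mean_le_arith_mean_weighted Finset.univ
      (fun j => (w j).toNNReal) (fun j => (a j).toNNReal) (by
        rw [← Real.toNNReal_sum_of_nonneg fun j _ => (hw j).le, hs, Real.toNNReal_one])
    have h2 : ∏ j, a j ^ w j = ((∏ j, (a j).toNNReal ^ ((w j).toNNReal : ℝ) : NNReal) : ℝ≥0∞) := by
      rw [ENNReal.ofNNReal_finsetProd]
      refine Finset.prod_congr rfl fun j _ => ?_
      rw [Real.coe_toNNReal _ (hw j).le, ENNReal.coe_rpow_of_nonneg _ (hw j).le,
        ENNReal.coe_toNNReal (htop j)]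
    have h3 : ∑ j, ENNReal.ofReal (w j) * a j =
        ((∑ j, (w j).toNNReal * (a j).toNNReal : NNReal) : ℝ≥0∞) := by
      rw [ENNReal.ofNNReal_finsetSum]
      refine Finset.sum_congr rfl fun j _ => ?_
      rw [ENNReal.coe_mul, ENNReal.coe_toNNReal (htop j)]
      rfl
    rw [h2, h3]
    exact_mod_cast h1

theorem prod_iSup_mono {J : Type*} (s : Finset J) (a : J → ℕ → ℝ≥0∞)
    (ha : ∀ j, Monotone (a j)) : ∏ j ∈ s, (⨆ n, a j n) = ⨆ n, ∏ j ∈ s, a j n := by
  classical
  induction s using Finset.induction_on with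
  | empty => simp
  | insert i s hi ih =>
    simp only [Finset.prod_insert hi]
    rw [ih]
    apply le_antisymm
    · rw [ENNReal.iSup_mul]
      refine iSup_le fun m => ?_
      rw [ENNReal.mul_iSup]
      refine iSup_le fun n => ?_
      refine le_trans ?_ (le_iSup _ (max m n))
      gcongr
      · exact ha i (le_max_left m n)
      · exact ha _ (le_max_right m n)
    · refine iSup_le fun n => ?_
      gcongr
      · exact le_iSup (a i) n
      · exact le_iSup (fun n => ∏ j ∈ s, a j n) n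

/-- The one-dimensional Prékopa–Leindler inequality for bounded functions. -/
theorem plJ_bdd {J : Type*} [Fintype J] [DecidableEq J] (w : J → ℝ) (hw : ∀ j, 0 < w j)
    (hs : ∑ j, w j = 1) (f : J → ℝ → ℝ≥0∞) (h : ℝ → ℝ≥0∞) (hf : ∀ j, Measurable (f j))
    (hh : Measurable h) (k : ℝ≥0∞) (hk : k ≠ ∞) (fk : ∀ j x, f j x ≤ k)
    (H : ∀ t : J → ℝ, ∏ j, f j (t j) ^ w j ≤ h (∑ j, w j * t j)) :
    ∏ j, (∫⁻ x, f j x) ^ w j ≤ ∫⁻ x, h x := by
  by_cases hz : ∃ j, (⨆ x, f j x) = 0
  · obtain ⟨j, hj⟩ := hz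
    have h1 : ∀ x, f j x = 0 := by simpa using hj
    rw [Finset.prod_eq_zero (Finset.mem_univ j)]
    · exact bot_le
    · simp [h1, hw j]
  push Not at hz
  set S : J → ℝ≥0∞ := fun j => ⨆ x, f j x with hS
  have S0 : ∀ j, S j ≠ 0 := hz
  have St : ∀ j, S j ≠ ∞ := fun j => ne_top_of_le_ne_top hk (iSup_le (fk j))
  have fS : ∀ j x, f j x ≤ S j := fun j x => le_iSup (f j) x
  set P : ℝ≥0∞ := ∏ j, S j ^ w j with hP
  have P0 : P ≠ 0 := by
    rw [hP, Finset.prod_ne_zero_iff]
    intro j _
    rw [Ne, ENNReal.rpow_eq_zero_iff]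
    push Not
    exact ⟨fun h => absurd h (S0 j), fun h => absurd h (St j)⟩
  have Pt : P ≠ ∞ := by
    rw [hP]
    exact ENNReal.prod_ne_top fun j _ => ENNReal.rpow_ne_top_of_nonneg (hw j).le (St j)
  have hdiv : ∀ j x, f j x / S j ≤ 1 := fun j x => ENNReal.div_le_of_le_mul (by
    rw [one_mul]; exact fS j x)
  have key := ml_aux w hw (fun j x => (f j x / S j).toReal) (fun x => (min (h x / P) 1).toReal)
    (fun j => ((hf j).div_const _).ennreal_toReal)
    ((hh.div_const _).min measurable_const).ennreal_toReal (fun j x => ENNReal.toReal_nonneg)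
    (fun x => ENNReal.toReal_nonneg) (fun j x => by
      have := ENNReal.toReal_mono ENNReal.one_ne_top (hdiv j x)
      simpa using this) (fun j s hs => by
      by_cases hs0 : s < 0
      · exact ⟨0, lt_of_lt_of_le hs0 ENNReal.toReal_nonneg⟩
      · push Not at hs0
        have h1 : ENNReal.ofReal s * S j < S j := by
          calc ENNReal.ofReal s * S j < 1 * S j := by
                rw [ENNReal.mul_lt_mul_iff_left (S0 j) (St j)]
                rw [← ENNReal.ofReal_one]
                exact (ENNReal.ofReal_lt_ofReal_iff one_pos).2 hs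
            _ = S j := one_mul _
        obtain ⟨x, hx⟩ := lt_iSup_iff.1 h1
        refine ⟨x, ?_⟩
        have h2 : ENNReal.ofReal s < f j x / S j := by
          rw [ENNReal.lt_div_iff_mul_lt (Or.inl (S0 j)) (Or.inl (St j))]
          exact hx
        exact (ENNReal.ofReal_lt_iff_lt_toReal hs0
          (ne_top_of_le_ne_top ENNReal.one_ne_top (hdiv j x))).1 h2) (fun t s hs0 hs1 hlt => by
      have hmin : min (h (∑ j, w j * t j) / P) 1 ≠ ∞ :=
        ne_top_of_le_ne_top ENNReal.one_ne_top (min_le_right _ _)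
      rw [← ENNReal.ofReal_lt_iff_lt_toReal hs0.le hmin, lt_min_iff]
      constructor
      · rw [ENNReal.lt_div_iff_mul_lt (Or.inl P0) (Or.inl Pt)]
        refine lt_of_lt_of_le ?_ (H t)
        have hJ : Nonempty J := by
          by_contra hcon
          rw [not_nonempty_iff] at hcon
          rw [Finset.univ_eq_empty, Finset.sum_empty] at hs
          exact zero_ne_one hs
        obtain ⟨j0, hj0⟩ := Finite.exists_min (fun j => (f j (t j) / S j).toReal)
        set s' := (f j0 (t j0) / S j0).toReal with hs'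
        have hss : s < s' := hlt j0
        have hs'0 : 0 < s' := hs0.trans hss
        have h1 : ∀ j, ENNReal.ofReal s' * S j ≤ f j (t j) := by
          intro j
          have h2 : ENNReal.ofReal s' ≤ f j (t j) / S j := by
            rw [ENNReal.ofReal_le_iff_le_toReal
              (ne_top_of_le_ne_top ENNReal.one_ne_top (hdiv j _))]
            exact hj0 j
          rwa [ENNReal.le_div_iff_mul_le (Or.inl (S0 j)) (Or.inl (St j))] at h2
        calc ENNReal.ofReal s * P < ENNReal.ofReal s' * P := by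
              rw [ENNReal.mul_lt_mul_iff_left P0 Pt]
              exact (ENNReal.ofReal_lt_ofReal_iff hs'0).2 hss
          _ = ∏ j, (ENNReal.ofReal s' * S j) ^ w j := by
              simp_rw [ENNReal.mul_rpow_of_nonneg _ _ (hw _).le]
              rw [Finset.prod_mul_distrib]
              congr 1
              simp_rw [ENNReal.ofReal_rpow_of_pos hs'0]
              rw [← ENNReal.ofReal_prod_of_nonneg fun j _ => (Real.rpow_pos_of_pos hs'0 _).le,
                ← Real.rpow_sum_of_pos hs'0, hs, Real.rpow_one]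
          _ ≤ ∏ j, f j (t j) ^ w j := by
              refine Finset.prod_le_prod' fun j _ => ?_
              exact ENNReal.rpow_le_rpow (h1 j) (hw j).le
      · rw [← ENNReal.ofReal_one]
        exact (ENNReal.ofReal_lt_ofReal_iff one_pos).2 hs1)
  have r1 : ∀ j x, ENNReal.ofReal ((f j x / S j).toReal) = f j x / S j := fun j x =>
    ENNReal.ofReal_toReal (ne_top_of_le_ne_top ENNReal.one_ne_top (hdiv j x))
  have r2 : ∀ x, ENNReal.ofReal ((min (h x / P) 1).toReal) ≤ h x / P := fun x => by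
    rw [ENNReal.ofReal_toReal (ne_top_of_le_ne_top ENNReal.one_ne_top (min_le_right _ _))]
    exact min_le_left _ _
  have h4 : ∑ j, ENNReal.ofReal (w j) * ∫⁻ x, f j x / S j ≤ (∫⁻ x, h x) / P := by
    calc ∑ j, ENNReal.ofReal (w j) * ∫⁻ x, f j x / S j
        = ∑ j, ENNReal.ofReal (w j) * ∫⁻ x, ENNReal.ofReal ((f j x / S j).toReal) := by
          simp_rw [r1]
      _ ≤ _ := key
      _ ≤ ∫⁻ x, h x / P := lintegral_mono r2
      _ = (∫⁻ x, h x) / P := by
          simp_rw [div_eq_mul_inv]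
          rw [lintegral_mul_const _ hh]
  have h5 : ∏ j, (∫⁻ x, f j x) ^ w j = P * ∏ j, (∫⁻ x, f j x / S j) ^ w j := by
    rw [hP, ← Finset.prod_mul_distrib]
    refine Finset.prod_congr rfl fun j _ => ?_
    simp_rw [div_eq_mul_inv]
    rw [lintegral_mul_const _ (hf j), ← ENNReal.mul_rpow_of_nonneg _ _ (hw j).le]
    congr 1
    rw [mul_comm, mul_assoc, ENNReal.inv_mul_cancel (S0 j) (St j), mul_one]
  rw [h5]
  calc P * ∏ j, (∫⁻ x, f j x / S j) ^ w j ≤ P * ((∫⁻ x, h x) / P) := by
        gcongr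
        exact (geom_le_arith w hw hs _).trans h4
    _ = ∫⁻ x, h x := ENNReal.mul_div_cancel P0 Pt

/-- **Prékopa–Leindler inequality** on the line for finitely many functions. -/
theorem plJ {J : Type*} [Fintype J] [DecidableEq J] (w : J → ℝ) (hw : ∀ j, 0 < w j)
    (hs : ∑ j, w j = 1) (f : J → ℝ → ℝ≥0∞) (h : ℝ → ℝ≥0∞) (hf : ∀ j, Measurable (f j))
    (hh : Measurable h)
    (H : ∀ t : J → ℝ, ∏ j, f j (t j) ^ w j ≤ h (∑ j, w j * t j)) :
    ∏ j, (∫⁻ x, f j x) ^ w j ≤ ∫⁻ x, h x := by
  have trunc : ∀ K : ℝ → ℝ≥0∞, Measurable K →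
      (∫⁻ x, K x) = ⨆ k : ℕ, ∫⁻ x, min (K x) (k : ℝ≥0∞) := by
    intro K hK
    rw [← lintegral_iSup (fun k => hK.min measurable_const)]
    · refine lintegral_congr (fun x => ?_)
      rw [← inf_iSup_eq, ENNReal.iSup_natCast]
      simp
    · intro a b hab x
      simp only
      gcongr
  have h1 : ∀ j, (∫⁻ x, f j x) ^ w j = ⨆ k : ℕ, (∫⁻ x, min (f j x) (k : ℝ≥0∞)) ^ w j := by
    intro j
    rw [trunc _ (hf j)]
    exact (ENNReal.orderIsoRpow (w j) (hw j)).map_iSup _
  simp_rw [h1]
  rw [prod_iSup_mono]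
  · refine iSup_le fun k => ?_
    refine plJ_bdd w hw hs (fun j x => min (f j x) (k : ℝ≥0∞)) h
      (fun j => (hf j).min measurable_const) hh k (ENNReal.natCast_ne_top k)
      (fun j x => min_le_right _ _) fun t => ?_
    refine le_trans ?_ (H t)
    refine Finset.prod_le_prod' fun j _ => ?_
    exact ENNReal.rpow_le_rpow (min_le_left _ _) (hw j).le
  · intro j a b hab
    refine ENNReal.rpow_le_rpow ?_ (hw j).le
    refine lintegral_mono fun x => ?_
    simp only
    gcongr

end Pool.Agent.R758.Cov
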