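import Mathlib
import Pool.Agent.R758.Cov.PL

/-!
Ball's bodies: moments of a log-concave function along rays.
-/

set_option autoImplicit false

open MeasureTheory Set Filter Topology
open scoped ENNReal

namespace Pool.Agent.R758.Cov

/-- The moment `k ∫₀^∞ R^(-k-1) u(R) dR`. -/
noncomputable def mom (k : ℕ) (u : ℝ → ℝ) : ℝ≥0∞ :=
  ∫⁻ R in Ioi (0 : ℝ), ENNReal.ofReal (k * R⁻¹ ^ (k + 1) * u R)

theorem tail (k : ℕ) (hk : 1 ≤ k) {a : ℝ} (ha : 0 < a) :
    ∫⁻ R in Ioi a, ENNReal.ofReal (k * R⁻¹ ^ (k + 1)) = ENNReal.ofReal (a⁻¹ ^ k) := by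
  have hk' : (0 : ℝ) < k := by exact_mod_cast hk
  have hlt : (-(k : ℝ) - 1) < -1 := by linarith
  have h1 := integrableOn_Ioi_rpow_of_lt hlt ha
  have h2 := integral_Ioi_rpow_of_lt hlt ha
  have h3 : ∀ R ∈ Ioi a, (k : ℝ) * R⁻¹ ^ (k + 1) = k * R ^ (-(k : ℝ) - 1) := by
    intro R hR
    have hR0 : 0 < R := ha.trans hR
    congr 1
    rw [inv_pow, ← Real.rpow_natCast, ← Real.rpow_neg hR0.le]
    congr 1
    push_cast
    ring
  rw [setLIntegral_congr_fun measurableSet_Ioi (fun R hR => by rw [h3 R hR]),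
    ← ofReal_integral_eq_lintegral_ofReal (h1.const_mul _)]
  · congr 1
    rw [integral_const_mul, h2, inv_pow, ← Real.rpow_natCast, ← Real.rpow_neg ha.le]
    have : -(k : ℝ) - 1 + 1 = -k := by ring
    rw [this]
    field_simp
  · refine (ae_restrict_mem measurableSet_Ioi).mono fun R hR => ?_
    have hR0 : 0 < R := ha.trans hR
    positivity

theorem mom_mono {k d : ℕ} (hk : 1 ≤ k) (hkd : k ≤ d) {u : ℝ → ℝ} (hu : Measurable u)
    (u0 : ∀ R, 0 ≤ u R) (u1 : ∀ R, u R ≤ 1) {a : ℝ} (ha : 0 < a)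
    (h : ENNReal.ofReal (a⁻¹ ^ k) ≤ mom k u) : ENNReal.ofReal (a⁻¹ ^ d) ≤ mom d u := by
  have hk' : (0 : ℝ) < k := by exact_mod_cast hk
  have hd' : (0 : ℝ) < d := by exact_mod_cast (hk.trans hkd)
  set A : ℝ := d / k * a⁻¹ ^ (d - k) with hA
  have hA0 : 0 < A := by positivity
  have hAk : A * k = d * a⁻¹ ^ (d - k) := by rw [hA]; field_simp
  have e1 : ∀ R : ℝ, R⁻¹ ^ (d + 1) = R⁻¹ ^ (d - k) * R⁻¹ ^ (k + 1) := by
    intro R
    rw [← pow_add]
    congr 1
    omega
  have mI : ∀ j : ℕ, Measurable fun R : ℝ => (j : ℝ) * R⁻¹ ^ (j + 1) := fun j => by fun_prop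
  have mU : ∀ j : ℕ, Measurable fun R : ℝ => ENNReal.ofReal ((j : ℝ) * R⁻¹ ^ (j + 1) * u R) :=
    fun j => ((mI j).mul hu).ennreal_ofReal
  have main : ∫⁻ R in Ioi (0 : ℝ), ((Ioi a).indicator
        (fun R => ENNReal.ofReal (d * R⁻¹ ^ (d + 1))) R +
        ENNReal.ofReal A * ENNReal.ofReal (k * R⁻¹ ^ (k + 1) * u R)) ≤
      ∫⁻ R in Ioi (0 : ℝ), (ENNReal.ofReal (d * R⁻¹ ^ (d + 1) * u R) + (Ioi a).indicator
        (fun R => ENNReal.ofReal A * ENNReal.ofReal (k * R⁻¹ ^ (k + 1))) R) := by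
    refine setLIntegral_mono' measurableSet_Ioi fun R hR => ?_
    have hR0 : (0 : ℝ) < R := hR
    have hRi : 0 < R⁻¹ := inv_pos.2 hR0
    have hu0 := u0 R
    have hu1 := u1 R
    have hT : 0 ≤ R⁻¹ ^ (k + 1) := by positivity
    by_cases hRa : R ∈ Ioi a
    · rw [indicator_of_mem hRa, indicator_of_mem hRa, ← ENNReal.ofReal_mul hA0.le,
        ← ENNReal.ofReal_mul hA0.le, ← ENNReal.ofReal_add (by positivity) (by positivity),
        ← ENNReal.ofReal_add (by positivity) (by positivity)]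
      apply ENNReal.ofReal_le_ofReal
      have hle : R⁻¹ ^ (d - k) ≤ a⁻¹ ^ (d - k) := by
        have : R⁻¹ ≤ a⁻¹ := inv_anti₀ ha (le_of_lt hRa)
        gcongr
      have h3 : 0 ≤ (1 - u R) * (d * (a⁻¹ ^ (d - k) - R⁻¹ ^ (d - k)) * R⁻¹ ^ (k + 1)) := by
        apply mul_nonneg (by linarith)
        apply mul_nonneg _ hT
        apply mul_nonneg hd'.le
        linarith
      rw [e1]
      have h4 : A * (k * R⁻¹ ^ (k + 1) * u R) = d * a⁻¹ ^ (d - k) * R⁻¹ ^ (k + 1) * u R := by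
        rw [← hAk]; ring
      have h5 : A * (k * R⁻¹ ^ (k + 1)) = d * a⁻¹ ^ (d - k) * R⁻¹ ^ (k + 1) := by
        rw [← hAk]; ring
      rw [h4, h5]
      nlinarith [h3]
    · rw [indicator_of_notMem hRa, indicator_of_notMem hRa, zero_add, add_zero,
        ← ENNReal.ofReal_mul hA0.le]
      apply ENNReal.ofReal_le_ofReal
      have hRa' : R ≤ a := not_lt.1 hRa
      have hle : a⁻¹ ^ (d - k) ≤ R⁻¹ ^ (d - k) := by
        have : a⁻¹ ≤ R⁻¹ := inv_anti₀ hR0 hRa'
        gcongr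
      have h4 : A * (k * R⁻¹ ^ (k + 1) * u R) = d * (a⁻¹ ^ (d - k) * R⁻¹ ^ (k + 1)) * u R := by
        rw [show A * (k * R⁻¹ ^ (k + 1) * u R) = (A * k) * R⁻¹ ^ (k + 1) * u R by ring, hAk]
        ring
      rw [h4, e1]
      gcongr
  have hI : Ioi (0 : ℝ) ∩ Ioi a = Ioi a := by
    rw [Ioi_inter_Ioi]
    congr 1
    exact max_eq_right ha.le
  have t1 : ∫⁻ R in Ioi (0 : ℝ), (Ioi a).indicator
      (fun R => ENNReal.ofReal (d * R⁻¹ ^ (d + 1))) R = ENNReal.ofReal (a⁻¹ ^ d) := by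
    rw [setLIntegral_indicator measurableSet_Ioi, inter_comm, hI, tail d (hk.trans hkd) ha]
  have t2 : ∫⁻ R in Ioi (0 : ℝ), (Ioi a).indicator
      (fun R => ENNReal.ofReal A * ENNReal.ofReal (k * R⁻¹ ^ (k + 1))) R =
      ENNReal.ofReal A * ENNReal.ofReal (a⁻¹ ^ k) := by
    rw [setLIntegral_indicator measurableSet_Ioi, inter_comm, hI,
      lintegral_const_mul _ (mI k).ennreal_ofReal, tail k hk ha]
  rw [lintegral_add_left ((mI d).ennreal_ofReal.indicator measurableSet_Ioi), t1,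
    lintegral_const_mul _ (mU k), lintegral_add_left (mU d), t2] at main
  have h6 : ENNReal.ofReal (a⁻¹ ^ d) + ENNReal.ofReal A * ENNReal.ofReal (a⁻¹ ^ k) ≤
      mom d u + ENNReal.ofReal A * ENNReal.ofReal (a⁻¹ ^ k) := by
    refine le_trans ?_ main
    gcongr
    exact h
  exact (ENNReal.add_le_add_iff_right
    (ENNReal.mul_ne_top ENNReal.ofReal_ne_top ENNReal.ofReal_ne_top)).1 h6

theorem point_ineq {p : ℕ} {A B R S s a b c : ℝ} (hs : 0 < s) (hA : 0 < A) (hB : 0 < B)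
    (hR : 0 < R) (hS : 0 < S) (ha : 0 ≤ a) (hb : 0 ≤ b)
    (H : 0 < a → 0 < b → a ^ (R / (R + S)) * b ^ (S / (R + S)) ≤ c)
    (h1 : s < A ^ p * (R⁻¹ ^ p * a)) (h2 : s < B ^ p * (S⁻¹ ^ p * b)) :
    s < (A + B) ^ p * ((R + S)⁻¹ ^ p * c) := by
  have ha' : 0 < a := by
    rcases eq_or_lt_of_le ha with h | h
    · rw [← h] at h1; simp at h1; linarith
    · exact h
  have hb' : 0 < b := by
    rcases eq_or_lt_of_le hb with h | h
    · rw [← h] at h2; simp at h2; linarith
    · exact h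
  have hH := H ha' hb'
  have hRS : 0 < R + S := by positivity
  set θ := R / (R + S) with hθ
  set η := S / (R + S) with hη
  have hθ0 : 0 < θ := by positivity
  have hη0 : 0 < η := by positivity
  have hsum : θ + η = 1 := by rw [hθ, hη]; field_simp
  have hg := Real.geom_mean_le_arith_mean2_weighted hθ0.le hη0.le
    (by positivity : 0 ≤ A / R) (by positivity : 0 ≤ B / S) hsum
  have e1 : θ * (A / R) + η * (B / S) = (A + B) / (R + S) := by
    rw [hθ, hη]; field_simp
  rw [e1] at hg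
  have h1' : s < (A / R) ^ p * a := by
    calc s < _ := h1
      _ = (A / R) ^ p * a := by rw [div_eq_mul_inv, mul_pow]; ring
  have h2' : s < (B / S) ^ p * b := by
    calc s < _ := h2
      _ = (B / S) ^ p * b := by rw [div_eq_mul_inv, mul_pow]; ring
  have pw : ∀ (x : ℝ), 0 ≤ x → ∀ t : ℝ, (x ^ p) ^ t = (x ^ t) ^ p := by
    intro x hx t
    rw [← Real.rpow_natCast, ← Real.rpow_natCast, ← Real.rpow_mul hx, ← Real.rpow_mul hx, mul_comm]
  calc s = s ^ θ * s ^ η := by rw [← Real.rpow_add hs, hsum, Real.rpow_one]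
    _ < ((A / R) ^ p * a) ^ θ * ((B / S) ^ p * b) ^ η := by
        apply mul_lt_mul''
        · exact Real.rpow_lt_rpow hs.le h1' hθ0
        · exact Real.rpow_lt_rpow hs.le h2' hη0
        · positivity
        · positivity
    _ = ((A / R) ^ θ * (B / S) ^ η) ^ p * (a ^ θ * b ^ η) := by
        rw [Real.mul_rpow (by positivity) ha, Real.mul_rpow (by positivity) hb,
          pw _ (by positivity), pw _ (by positivity), mul_pow]
        ring
    _ ≤ ((A + B) / (R + S)) ^ p * c := by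
        gcongr
    _ = (A + B) ^ p * ((R + S)⁻¹ ^ p * c) := by rw [div_eq_mul_inv, mul_pow]; ring

/-- Ball's inequality. -/
theorem ball_ineq {k : ℕ} (hk : 1 ≤ k) {u v w : ℝ → ℝ} (hu : Measurable u) (hv : Measurable v)
    (hw : Measurable w) (u0 : ∀ R, 0 ≤ u R) (v0 : ∀ R, 0 ≤ v R) (w0 : ∀ R, 0 ≤ w R)
    (H : ∀ R S, 0 < R → 0 < S → 0 < u R → 0 < v S →
      u R ^ (R / (R + S)) * v S ^ (S / (R + S)) ≤ w (R + S))
    {M : ℝ} (hMu : ∀ R, 0 < R → R⁻¹ ^ (k + 1) * u R ≤ M) (hMv : ∀ R, 0 < R → R⁻¹ ^ (k + 1) * v R ≤ M)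
    {a b : ℝ} (ha : 0 < a) (hb : 0 < b) (h1 : ENNReal.ofReal (a⁻¹ ^ k) ≤ mom k u)
    (h2 : ENNReal.ofReal (b⁻¹ ^ k) ≤ mom k v) :
    ENNReal.ofReal ((a + b)⁻¹ ^ k) ≤ mom k w := by
  have hk' : (0 : ℝ) < k := by exact_mod_cast hk
  have hM : 0 ≤ M := le_trans (mul_nonneg (by positivity) (u0 1)) (hMu 1 one_pos)
  set p : ℕ := k + 1 with hp
  -- the weighted functions
  set ex : (ℝ → ℝ) → ℝ → ℝ := fun u R => if 0 < R then R⁻¹ ^ p * u R else 0 with hex
  have exm : ∀ u : ℝ → ℝ, Measurable u → Measurable (ex u) := by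
    intro u hu
    refine Measurable.ite measurableSet_Ioi ?_ measurable_const
    exact ((measurable_inv.pow_const p).mul hu)
  have ex0 : ∀ u : ℝ → ℝ, (∀ R, 0 ≤ u R) → ∀ R, 0 ≤ ex u R := by
    intro u hu R
    simp only [hex]
    split_ifs with h
    · exact mul_nonneg (by positivity) (hu R)
    · exact le_rfl
  have exM : ∀ u : ℝ → ℝ, (∀ R, 0 < R → R⁻¹ ^ p * u R ≤ M) → ∀ R, ex u R ≤ M := by
    intro u hu R
    simp only [hex]
    split_ifs with h
    · exact hu R h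
    · exact hM
  have exint : ∀ u : ℝ → ℝ, Measurable u → (∀ R, 0 ≤ u R) →
      ENNReal.ofReal k * ∫⁻ R, ENNReal.ofReal (ex u R) = mom k u := by
    intro u hu hu0
    have e1 : ∀ R, ENNReal.ofReal (ex u R) =
        (Ioi (0 : ℝ)).indicator (fun R => ENNReal.ofReal (R⁻¹ ^ p * u R)) R := by
      intro R
      simp only [hex, indicator, mem_Ioi]
      split_ifs with h
      · rfl
      · simp
    simp_rw [e1]
    rw [lintegral_indicator measurableSet_Ioi, ← lintegral_const_mul]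
    · refine setLIntegral_congr_fun measurableSet_Ioi fun R hR => ?_
      rw [← ENNReal.ofReal_mul hk'.le, ← mul_assoc]
    · exact ((measurable_inv.pow_const p).mul hu).ennreal_ofReal
  -- normalisation
  have norm : ∀ u : ℝ → ℝ, Measurable u → (∀ R, 0 ≤ u R) → (∀ R, 0 < R → R⁻¹ ^ p * u R ≤ M) →
      ∀ a : ℝ, 0 < a → ENNReal.ofReal (a⁻¹ ^ k) ≤ mom k u →
      ∃ A : ℝ, 0 < A ∧ (∀ R, A ^ p * ex u R ≤ 1) ∧ ∀ s, s < 1 → ∃ R, s < A ^ p * ex u R := by
    intro u hu hu0 huM a ha hmom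
    set S := ⨆ R, ex u R with hS
    have hbdd : BddAbove (range (ex u)) := ⟨M, by rintro _ ⟨R, rfl⟩; exact exM u huM R⟩
    have hS0 : 0 < S := by
      by_contra hcon
      push Not at hcon
      have h0 : ∀ R, ex u R = 0 := fun R =>
        le_antisymm ((le_ciSup hbdd R).trans hcon) (ex0 u hu0 R)
      rw [← exint u hu hu0] at hmom
      simp only [h0, ENNReal.ofReal_zero, lintegral_zero, mul_zero] at hmom
      rw [ENNReal.ofReal_le_iff_le_toReal ENNReal.zero_ne_top, ENNReal.toReal_zero] at hmom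
      have : 0 < a⁻¹ ^ k := by positivity
      linarith
    refine ⟨(S⁻¹) ^ ((p : ℝ)⁻¹), by positivity, ?_, ?_⟩
    · intro R
      rw [Real.rpow_inv_natCast_pow (inv_pos.2 hS0).le (by omega)]
      rw [inv_mul_le_iff₀ hS0, mul_one]
      exact le_ciSup hbdd R
    · intro s hs
      rw [Real.rpow_inv_natCast_pow (inv_pos.2 hS0).le (by omega)]
      have : s * S < S := by nlinarith
      obtain ⟨R, hR⟩ := exists_lt_of_lt_ciSup this
      refine ⟨R, ?_⟩
      rw [inv_mul_eq_div, lt_div_iff₀ hS0]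
      exact hR
  obtain ⟨A, hA0, hA1, hA2⟩ := norm u hu u0 hMu a ha h1
  obtain ⟨B, hB0, hB1, hB2⟩ := norm v hv v0 hMv b hb h2
  have key := ml_aux (J := Bool) (fun i => if i then A else B)
    (fun i => by split_ifs <;> assumption)
    (fun i t => if i then A ^ p * ex u (A * t) else B ^ p * ex v (B * t))
    (fun r => (A + B) ^ p * ex w r)
    (fun i => by
      split_ifs
      · exact ((exm u hu).comp (measurable_const_mul A)).const_mul _
      · exact ((exm v hv).comp (measurable_const_mul B)).const_mul _)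
    ((exm w hw).const_mul _)
    (fun i t => by
      split_ifs
      · exact mul_nonneg (by positivity) (ex0 u u0 _)
      · exact mul_nonneg (by positivity) (ex0 v v0 _))
    (fun r => mul_nonneg (by positivity) (ex0 w w0 _))
    (fun i t => by
      split_ifs
      · exact hA1 _
      · exact hB1 _)
    (fun i s hs => by
      split_ifs
      · obtain ⟨R, hR⟩ := hA2 s hs
        exact ⟨A⁻¹ * R, by rwa [mul_inv_cancel_left₀ hA0.ne']⟩
      · obtain ⟨R, hR⟩ := hB2 s hs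
        exact ⟨B⁻¹ * R, by rwa [mul_inv_cancel_left₀ hB0.ne']⟩)
    (fun t s hs0 hs1 hlt => by
      have ht := hlt true
      have hf := hlt false
      simp only [if_true, Bool.false_eq_true, if_false] at ht hf
      rw [Fintype.sum_bool]
      simp only [if_true, Bool.false_eq_true, if_false]
      set R := A * t true with hR
      set S := B * t false with hS
      have hR0 : 0 < R := by
        by_contra hcon
        simp only [hex] at ht
        rw [if_neg hcon, mul_zero] at ht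
        linarith
      have hS0 : 0 < S := by
        by_contra hcon
        simp only [hex] at hf
        rw [if_neg hcon, mul_zero] at hf
        linarith
      simp only [hex] at ht hf ⊢
      rw [if_pos hR0] at ht
      rw [if_pos hS0] at hf
      rw [if_pos (add_pos hR0 hS0)]
      exact point_ineq hs0 hA0 hB0 hR0 hS0 (u0 R) (v0 S) (H R S hR0 hS0) ht hf)
  rw [Fintype.sum_bool] at key
  simp only [if_true, Bool.false_eq_true, if_false] at key
  have sc : ∀ (u : ℝ → ℝ), Measurable u → (∀ R, 0 ≤ u R) → ∀ A : ℝ, 0 < A →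
      ENNReal.ofReal k * (ENNReal.ofReal A * ∫⁻ t, ENNReal.ofReal (A ^ p * ex u (A * t))) =
      ENNReal.ofReal (A ^ p) * mom k u := by
    intro u hu hu0 A hA
    have e1 : ∫⁻ t, ENNReal.ofReal (A ^ p * ex u (A * t)) =
        ENNReal.ofReal A⁻¹ * ∫⁻ R, ENNReal.ofReal (A ^ p * ex u R) := by
      have hm : Measurable fun R => ENNReal.ofReal (A ^ p * ex u R) :=
        ((exm u hu).const_mul _).ennreal_ofReal
      have h3 := lintegral_map (μ := (volume : Measure ℝ)) hm (measurable_const_mul A)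
      rw [Real.map_volume_mul_left hA.ne', lintegral_smul_measure, abs_of_pos (inv_pos.2 hA),
        smul_eq_mul] at h3
      exact h3.symm
    have e2 : ∫⁻ R, ENNReal.ofReal (A ^ p * ex u R) =
        ENNReal.ofReal (A ^ p) * ∫⁻ R, ENNReal.ofReal (ex u R) := by
      rw [← lintegral_const_mul _ (exm u hu).ennreal_ofReal]
      refine lintegral_congr fun R => ?_
      rw [ENNReal.ofReal_mul (by positivity)]
    rw [e1, ← mul_assoc (ENNReal.ofReal A), ← ENNReal.ofReal_mul hA.le, mul_inv_cancel₀ hA.ne',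
      ENNReal.ofReal_one, one_mul, e2, ← exint u hu hu0]
    ring
  have sw : ENNReal.ofReal k * ∫⁻ r, ENNReal.ofReal ((A + B) ^ p * ex w r) =
      ENNReal.ofReal ((A + B) ^ p) * mom k w := by
    rw [← exint w hw w0, ← mul_assoc, mul_comm (ENNReal.ofReal ((A + B) ^ p)), mul_assoc]
    congr 1
    rw [← lintegral_const_mul _ (exm w hw).ennreal_ofReal]
    refine lintegral_congr fun R => ?_
    rw [ENNReal.ofReal_mul (by positivity)]
  have key2 : ENNReal.ofReal (A ^ p) * mom k u + ENNReal.ofReal (B ^ p) * mom k v ≤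
      ENNReal.ofReal ((A + B) ^ p) * mom k w := by
    rw [← sc u hu u0 A hA0, ← sc v hv v0 B hB0, ← sw, ← mul_add]
    gcongr
  have hreal : (A + B) ^ p * (a + b)⁻¹ ^ k ≤ A ^ p * a⁻¹ ^ k + B ^ p * b⁻¹ ^ k := by
    have hx1 : A / a ∈ Ici (0 : ℝ) := by rw [mem_Ici]; positivity
    have hx2 : B / b ∈ Ici (0 : ℝ) := by rw [mem_Ici]; positivity
    have hw1 : 0 ≤ a / (a + b) := by positivity
    have hw2 : 0 ≤ b / (a + b) := by positivity
    have hw3 : a / (a + b) + b / (a + b) = 1 := by field_simp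
    have hc := (convexOn_pow p).2 hx1 hx2 hw1 hw2 hw3
    simp only [smul_eq_mul] at hc
    have e1 : a / (a + b) * (A / a) + b / (a + b) * (B / b) = (A + B) / (a + b) := by
      field_simp
    rw [e1, hp] at hc
    have hab : 0 < a + b := by positivity
    have hid : ∀ C x : ℝ, 0 < x → x * (C / x) ^ (k + 1) = C ^ (k + 1) * x⁻¹ ^ k := by
      intro C x hx
      rw [div_eq_mul_inv, mul_pow, pow_succ x⁻¹,
        show x * (C ^ (k + 1) * (x⁻¹ ^ k * x⁻¹)) = C ^ (k + 1) * x⁻¹ ^ k * (x * x⁻¹) by ring,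
        mul_inv_cancel₀ hx.ne', mul_one]
    calc (A + B) ^ p * (a + b)⁻¹ ^ k = (a + b) * ((A + B) / (a + b)) ^ (k + 1) := by
          rw [hid _ _ hab]
      _ ≤ (a + b) * (a / (a + b) * (A / a) ^ (k + 1) + b / (a + b) * (B / b) ^ (k + 1)) := by
          gcongr
      _ = a * (A / a) ^ (k + 1) + b * (B / b) ^ (k + 1) := by
          field_simp
      _ = A ^ p * a⁻¹ ^ k + B ^ p * b⁻¹ ^ k := by
          rw [hid _ _ ha, hid _ _ hb]
  have key3 : ENNReal.ofReal ((A + B) ^ p) * ENNReal.ofReal ((a + b)⁻¹ ^ k) ≤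
      ENNReal.ofReal ((A + B) ^ p) * mom k w := by
    calc ENNReal.ofReal ((A + B) ^ p) * ENNReal.ofReal ((a + b)⁻¹ ^ k)
        = ENNReal.ofReal ((A + B) ^ p * (a + b)⁻¹ ^ k) := by
          rw [ENNReal.ofReal_mul (by positivity)]
      _ ≤ ENNReal.ofReal (A ^ p * a⁻¹ ^ k + B ^ p * b⁻¹ ^ k) := ENNReal.ofReal_le_ofReal hreal
      _ = ENNReal.ofReal (A ^ p) * ENNReal.ofReal (a⁻¹ ^ k) +
          ENNReal.ofReal (B ^ p) * ENNReal.ofReal (b⁻¹ ^ k) := by
          rw [ENNReal.ofReal_add (by positivity) (by positivity),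
            ENNReal.ofReal_mul (by positivity), ENNReal.ofReal_mul (by positivity)]
      _ ≤ ENNReal.ofReal (A ^ p) * mom k u + ENNReal.ofReal (B ^ p) * mom k v := by gcongr
      _ ≤ _ := key2
  have hne : ENNReal.ofReal ((A + B) ^ p) ≠ 0 := by
    rw [Ne, ENNReal.ofReal_eq_zero, not_le]; positivity
  exact (ENNReal.mul_le_mul_iff_right hne ENNReal.ofReal_ne_top).1 key3

end Pool.Agent.R758.Cov
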