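import Mathlib
import Pool.Agent.R758.Cov.Ball

/-!
The integral of `exp (-N)` where `N` is the gauge of Ball's body.
-/

set_option autoImplicit false

open MeasureTheory Set Filter Topology
open scoped ENNReal

namespace Pool.Agent.R758.Cov

/-- `exp (-m ^ (-1/k))`. -/
noncomputable def phi (k : ℕ) (m : ℝ≥0∞) : ℝ≥0∞ :=
  if m = 0 then 0 else ENNReal.ofReal (Real.exp (-(m ^ (-(1 : ℝ) / k)).toReal))

theorem phi_measurable (k : ℕ) : Measurable (phi k) := by
  unfold phi
  refine Measurable.ite (measurableSet_singleton 0) measurable_const ?_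
  have : Measurable fun m : ℝ≥0∞ => m ^ (-(1 : ℝ) / k) := by fun_prop
  exact (Real.measurable_exp.comp this.ennreal_toReal.neg).ennreal_ofReal

theorem phi_le_one (k : ℕ) (m : ℝ≥0∞) : phi k m ≤ 1 := by
  unfold phi
  split_ifs
  · exact bot_le
  · rw [← ENNReal.ofReal_one]
    apply ENNReal.ofReal_le_ofReal
    rw [Real.exp_le_one_iff]
    simp

theorem phi_top {k : ℕ} (hk : 1 ≤ k) : phi k ∞ = 1 := by
  have hk' : (0 : ℝ) < k := by exact_mod_cast hk
  unfold phi
  rw [if_neg ENNReal.top_ne_zero, ENNReal.top_rpow_of_neg]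
  · simp
  · rw [neg_div]
    simp only [Left.neg_neg_iff]
    positivity

theorem pow_rpow {k : ℕ} (hk : 1 ≤ k) {a : ℝ} (ha : 0 < a) :
    (ENNReal.ofReal (a⁻¹ ^ k)) ^ (-(1 : ℝ) / k) = ENNReal.ofReal a := by
  have hk' : (0 : ℝ) < k := by exact_mod_cast hk
  rw [ENNReal.ofReal_rpow_of_pos (by positivity)]
  congr 1
  rw [← Real.rpow_natCast, ← Real.rpow_mul (by positivity)]
  have : (k : ℝ) * (-1 / k) = -1 := by field_simp
  rw [this, Real.rpow_neg_one, inv_inv]

theorem phi_pow {k : ℕ} (hk : 1 ≤ k) {a : ℝ} (ha : 0 < a) :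
    phi k (ENNReal.ofReal (a⁻¹ ^ k)) = ENNReal.ofReal (Real.exp (-a)) := by
  unfold phi
  rw [if_neg, pow_rpow hk ha, ENNReal.toReal_ofReal ha.le]
  rw [ENNReal.ofReal_eq_zero, not_le]
  positivity

theorem exists_pow {k : ℕ} (hk : 1 ≤ k) {m : ℝ≥0∞} (h0 : m ≠ 0) (ht : m ≠ ∞) :
    ∃ a : ℝ, 0 < a ∧ m = ENNReal.ofReal (a⁻¹ ^ k) := by
  have hk' : (0 : ℝ) < k := by exact_mod_cast hk
  have hm : 0 < m.toReal := ENNReal.toReal_pos h0 ht
  refine ⟨(m.toReal ^ ((k : ℝ)⁻¹))⁻¹, by positivity, ?_⟩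
  rw [inv_inv, Real.rpow_inv_natCast_pow hm.le (by omega), ENNReal.ofReal_toReal ht]

theorem phi_mono {k : ℕ} (hk : 1 ≤ k) {m m' : ℝ≥0∞} (h : m ≤ m') : phi k m ≤ phi k m' := by
  have hk' : (0 : ℝ) < k := by exact_mod_cast hk
  by_cases h0 : m = 0
  · rw [h0]; unfold phi; rw [if_pos rfl]; exact bot_le
  by_cases ht : m' = ∞
  · rw [ht, phi_top hk]; exact phi_le_one k m
  have hmt : m ≠ ∞ := ne_top_of_le_ne_top ht h
  have h0' : m' ≠ 0 := fun h1 => h0 (le_antisymm (h1 ▸ h) bot_le)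
  obtain ⟨a, ha, rfl⟩ := exists_pow hk h0 hmt
  obtain ⟨b, hb, rfl⟩ := exists_pow hk h0' ht
  rw [phi_pow hk ha, phi_pow hk hb]
  apply ENNReal.ofReal_le_ofReal
  apply Real.exp_le_exp.2
  rw [ENNReal.ofReal_le_ofReal_iff (by positivity)] at h
  have h2 : a⁻¹ ≤ b⁻¹ := le_of_pow_le_pow_left₀ (by omega) (by positivity) h
  have h3 : b ≤ a := (inv_le_inv₀ ha hb).1 h2
  linarith

section space

variable {E : Type*} [NormedAddCommGroup E] [NormedSpace ℝ E] [FiniteDimensional ℝ E]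
  [MeasurableSpace E] [BorelSpace E]

theorem lint_smul (μ : Measure E) [μ.IsAddHaarMeasure] {f : E → ℝ≥0∞} (hf : Measurable f) {c : ℝ}
    (hc : 0 < c) :
    ∫⁻ x, f x ∂μ = ENNReal.ofReal (c ^ Module.finrank ℝ E) * ∫⁻ x, f (c • x) ∂μ := by
  have h1 := lintegral_map (μ := μ) hf (measurable_const_smul c)
  rw [Measure.map_addHaar_smul μ hc.ne', lintegral_smul_measure, smul_eq_mul,
    abs_of_pos (by positivity)] at h1
  rw [← h1, ← mul_assoc, ← ENNReal.ofReal_mul (by positivity), mul_inv_cancel₀ (by positivity),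
    ENNReal.ofReal_one, one_mul]

/-- The moment along the ray through `x`. -/
noncomputable def mm (k : ℕ) (g : E → ℝ) (x : E) : ℝ≥0∞ := mom k fun R => g (R⁻¹ • x)

theorem mm_integrand (k : ℕ) {g : E → ℝ} (hg : Measurable g) :
    Measurable fun p : E × ℝ => ENNReal.ofReal (k * p.2⁻¹ ^ (k + 1) * g (p.2⁻¹ • p.1)) := by
  have h1 : Measurable fun p : E × ℝ => g (p.2⁻¹ • p.1) :=
    hg.comp (measurable_snd.inv.smul measurable_fst)
  have h2 : Measurable fun p : E × ℝ => (k : ℝ) * p.2⁻¹ ^ (k + 1) := by fun_prop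
  exact (h2.mul h1).ennreal_ofReal

theorem mm_measurable (k : ℕ) {g : E → ℝ} (hg : Measurable g) : Measurable (mm k g) :=
  (mm_integrand k hg).lintegral_prod_right'

theorem scale_line {f : ℝ → ℝ≥0∞} (hf : Measurable f) {c : ℝ} (hc : 0 < c) :
    ∫⁻ x in Ioi (0 : ℝ), f x = ENNReal.ofReal c * ∫⁻ x in Ioi (0 : ℝ), f (c * x) := by
  have h := lint_smul (volume : Measure ℝ) (hf.indicator measurableSet_Ioi) (c := c) hc
    (f := (Ioi (0 : ℝ)).indicator f)
  rw [lintegral_indicator measurableSet_Ioi] at h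
  rw [h]
  simp only [Module.finrank_self, pow_one, smul_eq_mul]
  congr 1
  rw [← lintegral_indicator measurableSet_Ioi]
  refine lintegral_congr fun x => ?_
  by_cases hx : 0 < x
  · rw [indicator_of_mem (mem_Ioi.2 hx), indicator_of_mem (mem_Ioi.2 (by positivity))]
  · have h1 : x ∉ Ioi (0 : ℝ) := hx
    have h2 : c * x ∉ Ioi (0 : ℝ) := by
      simp only [mem_Ioi, not_lt] at hx ⊢
      nlinarith
    rw [indicator_of_notMem h1, indicator_of_notMem h2]

theorem mm_smul (k : ℕ) {g : E → ℝ} (hg : Measurable g) {c : ℝ} (hc : 0 < c) (x : E) :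
    mm k g (c • x) = ENNReal.ofReal (c⁻¹ ^ k) * mm k g x := by
  unfold mm mom
  have hm : ∀ y : E, Measurable fun R : ℝ =>
      ENNReal.ofReal (k * R⁻¹ ^ (k + 1) * g (R⁻¹ • y)) := fun y =>
    (mm_integrand k hg).comp (measurable_const.prodMk measurable_id)
  rw [scale_line (hm _) hc, ← lintegral_const_mul _ (hm _), ← lintegral_const_mul]
  · refine setLIntegral_congr_fun measurableSet_Ioi fun R hR => ?_
    have hR0 : (0 : ℝ) < R := hR
    rw [← ENNReal.ofReal_mul hc.le, ← ENNReal.ofReal_mul (by positivity)]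
    congr 1
    have e1 : (c * R)⁻¹ • c • x = R⁻¹ • x := by
      rw [smul_smul]
      congr 1
      field_simp
    rw [e1, mul_inv, mul_pow, pow_succ c⁻¹]
    have : c * (k * (c⁻¹ ^ k * c⁻¹ * R⁻¹ ^ (k + 1)) * g (R⁻¹ • x)) =
        (c * c⁻¹) * (c⁻¹ ^ k * (k * R⁻¹ ^ (k + 1) * g (R⁻¹ • x))) := by ring
    rw [this, mul_inv_cancel₀ hc.ne', one_mul]
  · exact (hm (c • x)).comp (measurable_const_mul c)

/-- The basic identity. -/
theorem basic (μ : Measure E) [μ.IsAddHaarMeasure] {g : E → ℝ} (hg : Measurable g)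
    (g0 : ∀ x, 0 ≤ g x) {ω : ℝ≥0∞ → ℝ≥0∞} (hω : Measurable ω) {k : ℕ}
    (hk : Module.finrank ℝ E = k) :
    ∫⁻ y, mm k g y * ω (mm k g y) ∂μ = ∫⁻ x, ENNReal.ofReal (g x) *
      (∫⁻ R in Ioi (0 : ℝ), ENNReal.ofReal (k * R⁻¹) * ω (ENNReal.ofReal (R⁻¹ ^ k) * mm k g x)) ∂μ
      := by
  have hM := mm_measurable k hg
  have hI := mm_integrand k hg
  have s1 : ∀ y, mm k g y * ω (mm k g y) = ∫⁻ R in Ioi (0 : ℝ),
      ENNReal.ofReal (k * R⁻¹ ^ (k + 1) * g (R⁻¹ • y)) * ω (mm k g y) := by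
    intro y
    rw [lintegral_mul_const]
    · rfl
    · exact hI.comp (measurable_const.prodMk measurable_id)
  simp_rw [s1]
  rw [lintegral_lintegral_swap]
  swap
  · exact (hI.mul ((hω.comp hM).comp measurable_fst)).aemeasurable
  have s2 : ∀ R ∈ Ioi (0 : ℝ), ∫⁻ y, ENNReal.ofReal (k * R⁻¹ ^ (k + 1) * g (R⁻¹ • y)) *
      ω (mm k g y) ∂μ = ∫⁻ x, ENNReal.ofReal (g x) * (ENNReal.ofReal (k * R⁻¹) *
        ω (ENNReal.ofReal (R⁻¹ ^ k) * mm k g x)) ∂μ := by
    intro R hR
    have hR0 : (0 : ℝ) < R := hR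
    rw [lint_smul μ _ hR0, hk, ← lintegral_const_mul]
    · refine lintegral_congr fun x => ?_
      rw [mm_smul k hg hR0, inv_smul_smul₀ hR0.ne', ← mul_assoc, ← mul_assoc]
      congr 1
      rw [← ENNReal.ofReal_mul (by positivity), ← ENNReal.ofReal_mul (g0 x)]
      congr 1
      rw [pow_succ, inv_pow]
      have hRk : R ^ k * (R ^ k)⁻¹ = 1 := mul_inv_cancel₀ (by positivity)
      linear_combination (k * R⁻¹ * g x) * hRk
    · refine Measurable.mul ?_ (hω.comp (hM.comp (measurable_const_smul R)))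
      exact (measurable_const.mul (hg.comp ((measurable_const_smul R⁻¹).comp
        (measurable_const_smul R)))).ennreal_ofReal
    · refine Measurable.mul ?_ (hω.comp hM)
      exact (measurable_const.mul (hg.comp (measurable_const_smul R⁻¹))).ennreal_ofReal
  rw [setLIntegral_congr_fun measurableSet_Ioi s2, lintegral_lintegral_swap]
  · refine lintegral_congr fun x => ?_
    rw [lintegral_const_mul]
    refine Measurable.mul (by fun_prop) (hω.comp ?_)
    exact Measurable.mul_const (by fun_prop) _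
  · refine (Measurable.mul (hg.comp measurable_snd).ennreal_ofReal ?_).aemeasurable
    refine Measurable.mul (by fun_prop) (hω.comp ?_)
    exact Measurable.mul (by fun_prop) (hM.comp measurable_snd)

theorem gamma_int {k : ℕ} (hk : 1 ≤ k) {N : ℝ} (hN : 0 < N) :
    ∫⁻ R in Ioi (0 : ℝ), ENNReal.ofReal (k * R⁻¹) *
      ((ENNReal.ofReal (R⁻¹ ^ k) * ENNReal.ofReal (N⁻¹ ^ k))⁻¹ *
        phi k (ENNReal.ofReal (R⁻¹ ^ k) * ENNReal.ofReal (N⁻¹ ^ k))) = (k.factorial : ℝ≥0∞) := by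
  have hk' : (0 : ℝ) < k := by exact_mod_cast hk
  have e1 : ∀ R ∈ Ioi (0 : ℝ), ENNReal.ofReal (k * R⁻¹) *
      ((ENNReal.ofReal (R⁻¹ ^ k) * ENNReal.ofReal (N⁻¹ ^ k))⁻¹ *
        phi k (ENNReal.ofReal (R⁻¹ ^ k) * ENNReal.ofReal (N⁻¹ ^ k))) =
      ENNReal.ofReal (k * N ^ k * (R ^ ((k : ℝ) - 1) * Real.exp (-(N * R)))) := by
    intro R hR
    have hR0 : (0 : ℝ) < R := hR
    have e2 : ENNReal.ofReal (R⁻¹ ^ k) * ENNReal.ofReal (N⁻¹ ^ k) =
        ENNReal.ofReal ((N * R)⁻¹ ^ k) := by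
      rw [← ENNReal.ofReal_mul (by positivity)]
      congr 1
      rw [← mul_pow, ← mul_inv, mul_comm R N]
    rw [e2, phi_pow hk (by positivity), ← ENNReal.ofReal_inv_of_pos (by positivity),
      ← ENNReal.ofReal_mul (by positivity), ← ENNReal.ofReal_mul (by positivity)]
    congr 1
    rw [Real.rpow_sub_one hR0.ne', Real.rpow_natCast, inv_pow, inv_inv, mul_pow]
    ring
  have hint := Real.integral_rpow_mul_exp_neg_mul_Ioi hk' hN
  have hG := Real.Gamma_pos_of_pos hk'
  have hintg : IntegrableOn (fun R : ℝ => R ^ ((k : ℝ) - 1) * Real.exp (-(N * R))) (Ioi 0) := by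
    apply Integrable.of_integral_ne_zero
    rw [hint]
    positivity
  rw [setLIntegral_congr_fun measurableSet_Ioi e1, ← ofReal_integral_eq_lintegral_ofReal]
  · rw [integral_const_mul, hint]
    have h3 : (k : ℝ) * Real.Gamma k = k.factorial := by
      obtain ⟨j, rfl⟩ : ∃ j, k = j + 1 := ⟨k - 1, by omega⟩
      push_cast
      rw [Real.Gamma_nat_eq_factorial, Nat.factorial_succ]
      push_cast
      ring
    have h4 : (k : ℝ) * N ^ k * ((1 / N) ^ (k : ℝ) * Real.Gamma k) = k.factorial := by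
      rw [Real.rpow_natCast, one_div, inv_pow, ← h3]
      have : N ^ k * (N ^ k)⁻¹ = 1 := mul_inv_cancel₀ (by positivity)
      linear_combination (k * Real.Gamma k) * this
    rw [h4, ENNReal.ofReal_natCast]
  · exact hintg.const_mul _
  · refine (ae_restrict_mem measurableSet_Ioi).mono fun R hR => ?_
    have hR0 : (0 : ℝ) < R := hR
    positivity

/-- The integral of `exp (-N)`. -/
theorem gauge_int (μ : Measure E) [μ.IsAddHaarMeasure] {g : E → ℝ} (hg : Measurable g)
    (g0 : ∀ x, 0 ≤ g x) {k : ℕ} (hk1 : 1 ≤ k) (hk : Module.finrank ℝ E = k)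
    (htop : ∀ x, x ≠ 0 → mm k g x ≠ ∞) :
    ∫⁻ y, phi k (mm k g y) ∂μ = (k.factorial : ℝ≥0∞) * ∫⁻ x, ENNReal.ofReal (g x) ∂μ := by
  have hk' : (0 : ℝ) < k := by exact_mod_cast hk1
  have hM := mm_measurable k hg
  have hnull : μ {(0 : E)} = 0 := by
    have : Nontrivial E := by
      rw [← Module.finrank_pos_iff (R := ℝ), hk]
      exact hk1
    exact measure_singleton 0
  have hne0 : ∀ᵐ x ∂μ, x ≠ 0 := by
    rw [ae_iff]
    simpa using hnull
  -- the function vanishes almost everywhere on the set of the rays without mass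
  have hzero : ∀ᵐ x ∂μ, mm k g x = 0 → ENNReal.ofReal (g x) = 0 := by
    have hω : Measurable fun m : ℝ≥0∞ => if m = 0 then (1 : ℝ≥0∞) else 0 :=
      Measurable.ite (measurableSet_singleton 0) measurable_const measurable_const
    have h1 := basic μ hg g0 hω hk
    have h2 : ∀ y, mm k g y * (if mm k g y = 0 then (1 : ℝ≥0∞) else 0) = 0 := by
      intro y
      split_ifs with h
      · rw [h, zero_mul]
      · rw [mul_zero]
    simp only [h2, lintegral_zero] at h1
    have h3 := h1.symm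
    rw [lintegral_eq_zero_iff] at h3
    · filter_upwards [h3] with x hx hx0
      rw [Pi.zero_apply, mul_eq_zero] at hx
      rcases hx with hx | hx
      · exact hx
      · exfalso
        have h4 : ∀ R ∈ Ioi (0 : ℝ), ENNReal.ofReal (k * R⁻¹) *
            (if ENNReal.ofReal (R⁻¹ ^ k) * mm k g x = 0 then (1 : ℝ≥0∞) else 0) =
            ENNReal.ofReal (k * R⁻¹) := by
          intro R hR
          rw [hx0, mul_zero, if_pos rfl, mul_one]
        rw [setLIntegral_congr_fun measurableSet_Ioi h4] at hx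
        rw [lintegral_eq_zero_iff (by fun_prop)] at hx
        have h5 : ∀ᵐ R ∂(volume.restrict (Ioi (0 : ℝ))), False := by
          filter_upwards [hx, ae_restrict_mem measurableSet_Ioi] with R hR hR0
          have hR1 : (0 : ℝ) < R := hR0
          simp only [Pi.zero_apply, ENNReal.ofReal_eq_zero] at hR
          have : 0 < (k : ℝ) * R⁻¹ := by positivity
          linarith
        rw [Filter.eventually_false_iff_eq_bot, ae_eq_bot, Measure.restrict_eq_zero] at h5
        simp at h5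
    · refine Measurable.mul hg.ennreal_ofReal ?_
      refine Measurable.lintegral_prod_right' (f := fun p : E × ℝ => ENNReal.ofReal (k * p.2⁻¹) *
        (if ENNReal.ofReal (p.2⁻¹ ^ k) * mm k g p.1 = 0 then (1 : ℝ≥0∞) else 0)) ?_
      refine Measurable.mul (by fun_prop) (hω.comp ?_)
      exact Measurable.mul (by fun_prop) (hM.comp measurable_fst)
  have hωm : Measurable fun m : ℝ≥0∞ => m⁻¹ * phi k m := by
    exact measurable_inv.mul (phi_measurable k)
  have hb := basic μ hg g0 hωm hk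
  have l1 : ∫⁻ y, phi k (mm k g y) ∂μ =
      ∫⁻ y, mm k g y * ((mm k g y)⁻¹ * phi k (mm k g y)) ∂μ := by
    refine lintegral_congr_ae ?_
    filter_upwards [hne0] with y hy
    by_cases h0 : mm k g y = 0
    · rw [h0, zero_mul]; unfold phi; rw [if_pos rfl]
    · rw [← mul_assoc, ENNReal.mul_inv_cancel h0 (htop y hy), one_mul]
  rw [l1, hb, ← lintegral_const_mul _ hg.ennreal_ofReal]
  refine lintegral_congr_ae ?_
  filter_upwards [hne0, hzero] with x hx hx0
  by_cases h0 : mm k g x = 0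
  · rw [hx0 h0, zero_mul, mul_zero]
  · obtain ⟨N, hN, hNe⟩ := exists_pow hk1 h0 (htop x hx)
    rw [hNe, gamma_int hk1 hN, mul_comm]

end space

end Pool.Agent.R758.Cov
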