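import Mathlib
import Pool.Agent.R758.Cov.PL

/-!
The reverse Brascamp–Lieb inequality (Barthe) for coordinate subspaces.
-/

set_option autoImplicit false

open MeasureTheory Set Filter Topology
open scoped ENNReal

namespace Pool.Agent.R758.Cov

theorem plJ_const {J : Type*} [Fintype J] [DecidableEq J] (w : J → ℝ) (hw : ∀ j, 0 < w j)
    (hs : ∑ j, w j = 1) (f : J → ℝ → ℝ≥0∞) (h : ℝ → ℝ≥0∞) (hf : ∀ j, Measurable (f j))
    (hh : Measurable h) (C : ℝ≥0∞)
    (H : ∀ t : J → ℝ, C * ∏ j, f j (t j) ^ w j ≤ h (∑ j, w j * t j)) :
    C * ∏ j, (∫⁻ x, f j x) ^ w j ≤ ∫⁻ x, h x := by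
  have hJ : Nonempty J := by
    by_contra hcon
    rw [not_nonempty_iff] at hcon
    rw [Finset.univ_eq_empty, Finset.sum_empty] at hs
    exact zero_ne_one hs
  obtain ⟨j0⟩ := hJ
  set d : J → ℝ≥0∞ := fun j => if j = j0 then C ^ (w j)⁻¹ else 1 with hd
  have hdp : ∏ j, d j ^ w j = C := by
    have h1 : ∀ j, d j ^ w j = if j = j0 then C else 1 := by
      intro j
      simp only [hd]
      by_cases hj : j = j0
      · rw [if_pos hj, if_pos hj, ← ENNReal.rpow_mul, inv_mul_cancel₀ (hw j).ne',
          ENNReal.rpow_one]
      · rw [if_neg hj, if_neg hj, ENNReal.one_rpow]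
    simp_rw [h1]
    rw [Finset.prod_ite_eq' Finset.univ j0]
    simp
  have key := plJ w hw hs (fun j x => d j * f j x) h (fun j => (hf j).const_mul _) hh (by
    intro t
    refine le_trans (le_of_eq ?_) (H t)
    simp_rw [ENNReal.mul_rpow_of_nonneg _ _ (hw _).le]
    rw [Finset.prod_mul_distrib, hdp])
  refine le_trans (le_of_eq ?_) key
  simp_rw [lintegral_const_mul _ (hf _), ENNReal.mul_rpow_of_nonneg _ _ (hw _).le]
  rw [Finset.prod_mul_distrib, hdp]

theorem rbl {ι J : Type*} [DecidableEq ι] [Fintype J] [DecidableEq J] (c : J → ℝ)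
    (hc : ∀ j, 0 < c j) (F : (ι → ℝ) → ℝ≥0∞) (G : J → (ι → ℝ) → ℝ≥0∞) (hF : Measurable F)
    (hG : ∀ j, Measurable (G j)) (s : Finset ι) :
    ∀ (τ : J → Finset ι), (∀ j, τ j ⊆ s) → (∀ i ∈ s, ∑ j with i ∈ τ j, c j = 1) →
    ∀ (x : J → ι → ℝ), (∀ y : J → ι → ℝ, (∀ j i, i ∉ τ j → y j i = x j i) →
      ∏ j, G j (y j) ^ c j ≤ F (∑ j, c j • y j)) →
    ∏ j, (lmarginal (fun _ => volume) (τ j) (G j) (x j)) ^ c j ≤
      lmarginal (fun _ => volume) s F (∑ j, c j • x j) := by
  classical
  induction s using Finset.induction_on with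
  | empty =>
    intro τ hτ _ x H
    have h1 : ∀ j, τ j = ∅ := fun j => Finset.subset_empty.1 (hτ j)
    simp_rw [h1, lmarginal_empty]
    exact H x fun j i _ => rfl
  | insert i s hi ih =>
    intro τ hτ hcov x H
    -- the tuples with a new coordinate `i`
    set xt : (J → ℝ) → J → ι → ℝ :=
      fun t j => if i ∈ τ j then Function.update (x j) i (t j) else x j with hxt
    have hih : ∀ t : J → ℝ, ∏ j, (lmarginal (fun _ => volume) ((τ j).erase i) (G j) (xt t j)) ^ c j
        ≤ lmarginal (fun _ => volume) s F (∑ j, c j • xt t j) := by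
      intro t
      refine ih (fun j => (τ j).erase i) ?_ ?_ (xt t) ?_
      · intro j k hk
        rw [Finset.mem_erase] at hk
        exact (Finset.mem_insert.1 (hτ j hk.2)).resolve_left hk.1
      · intro k hk
        have hki : k ≠ i := fun h => hi (h ▸ hk)
        rw [← hcov k (Finset.mem_insert_of_mem hk)]
        congr 1
        ext j
        simp [hki]
      · intro y hy
        apply H
        intro j k hk
        rw [hy j k (fun h => hk (Finset.mem_of_mem_erase h))]
        simp only [hxt]
        by_cases hij : i ∈ τ j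
        · rw [if_pos hij, Function.update_of_ne]
          rintro rfl
          exact hk hij
        · rw [if_neg hij]
    set X : ι → ℝ := ∑ j, c j • x j with hX
    set b : ℝ := ∑ j : {j // ¬ i ∈ τ j}, c j * x j i with hb
    have hsum : ∀ t : J → ℝ, ∑ j, c j • xt t j =
        Function.update X i ((∑ j : {j // i ∈ τ j}, c j * t j) + b) := by
      intro t
      ext k
      rw [Finset.sum_apply]
      by_cases hk : k = i
      · subst hk
        rw [Function.update_self, hb,
          ← Fintype.sum_subtype_add_sum_subtype (fun j => k ∈ τ j) (fun j => (c j • xt t j) k)]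
        congr 1
        · refine Finset.sum_congr rfl fun j _ => ?_
          simp only [hxt, Pi.smul_apply, smul_eq_mul]
          rw [if_pos j.2, Function.update_self]
        · refine Finset.sum_congr rfl fun j _ => ?_
          simp only [hxt, Pi.smul_apply, smul_eq_mul]
          rw [if_neg j.2]
      · rw [Function.update_of_ne hk, hX, Finset.sum_apply]
        refine Finset.sum_congr rfl fun j _ => ?_
        simp only [hxt, Pi.smul_apply, smul_eq_mul]
        by_cases hij : i ∈ τ j
        · rw [if_pos hij, Function.update_of_ne hk]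
        · rw [if_neg hij]
    have hFm : Measurable (lmarginal (fun _ : ι => (volume : Measure ℝ)) s F) := hF.lmarginal _
    have hGm : ∀ (S : Finset ι) (j : J),
        Measurable (lmarginal (fun _ : ι => (volume : Measure ℝ)) S (G j)) :=
      fun S j => (hG j).lmarginal _
    set C : ℝ≥0∞ := ∏ j : {j // ¬ i ∈ τ j},
      (lmarginal (fun _ => volume) (τ j) (G j) (x j)) ^ c j with hC
    have key := plJ_const (J := {j // i ∈ τ j}) (fun j => c j) (fun j => hc j) (by
        rw [← hcov i (Finset.mem_insert_self i s)]
        exact (Finset.sum_subtype _ (by simp) c).symm)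
      (fun j r => lmarginal (fun _ => volume) ((τ j).erase i) (G j) (Function.update (x j) i r))
      (fun r => lmarginal (fun _ => volume) s F (Function.update X i (r + b)))
      (fun j => (hGm _ _).comp (measurable_update _))
      (hFm.comp ((measurable_update _).comp (measurable_add_const b))) C (by
        intro t
        set t' : J → ℝ := fun j => if h : i ∈ τ j then t ⟨j, h⟩ else 0 with ht'
        have h1 := hih t'
        rw [hsum, ← Fintype.prod_subtype_mul_prod_subtype (fun j => i ∈ τ j), mul_comm] at h1
        have e1 : ∏ j : {j // ¬ i ∈ τ j},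
            (lmarginal (fun _ => volume) ((τ j).erase i) (G j) (xt t' j)) ^ c j = C := by
          rw [hC]
          refine Finset.prod_congr rfl fun j _ => ?_
          rw [Finset.erase_eq_of_notMem j.2]
          simp only [hxt]
          rw [if_neg j.2]
        have e2 : ∏ j : {j // i ∈ τ j},
            (lmarginal (fun _ => volume) ((τ j).erase i) (G j) (xt t' j)) ^ c j =
            ∏ j : {j // i ∈ τ j}, (lmarginal (fun _ => volume) ((τ j).erase i) (G j)
              (Function.update (x j) i (t j))) ^ c j := by
          refine Finset.prod_congr rfl fun j _ => ?_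
          simp only [hxt, ht']
          rw [if_pos j.2, dif_pos j.2]
        have e3 : ∑ j : {j // i ∈ τ j}, c j * t' j = ∑ j : {j // i ∈ τ j}, c j * t j := by
          refine Finset.sum_congr rfl fun j _ => ?_
          simp only [ht']
          rw [dif_pos j.2]
        rw [e1, e2, e3] at h1
        exact h1)
    rw [lmarginal_insert _ hF hi]
    have e4 : ∫⁻ r, lmarginal (fun _ => volume) s F (Function.update X i (r + b)) =
        ∫⁻ r, lmarginal (fun _ => volume) s F (Function.update X i r) :=
      lintegral_add_right_eq_self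
        (fun r => lmarginal (fun _ => volume) s F (Function.update X i r)) b
    rw [e4] at key
    refine le_trans (le_of_eq ?_) key
    rw [← Fintype.prod_subtype_mul_prod_subtype (fun j => i ∈ τ j), mul_comm]
    congr 1
    refine Finset.prod_congr rfl fun j _ => ?_
    rw [lmarginal_erase _ (hG j) j.2]

end Pool.Agent.R758.Cov
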