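import Mathlib
import Pool.Agent.R758.Cov.Gauge
import Pool.Agent.R758.Cov.RBL

/-!
Log-concave functions: the function `exp (-N)` is log-concave in a strong sense.
-/

set_option autoImplicit false
set_option linter.unusedSectionVars false

open MeasureTheory Set Filter Topology
open scoped ENNReal

namespace Pool.Agent.R758.Cov

section space

variable {E : Type*} [NormedAddCommGroup E] [NormedSpace ℝ E] [FiniteDimensional ℝ E]
  [MeasurableSpace E] [BorelSpace E]

/-- The standing assumptions: a measurable log-concave function with values in `[0,1]` and with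
bounded support. -/
structure LC (g : E → ℝ) : Prop where
  meas : Measurable g
  nonneg : ∀ x, 0 ≤ g x
  le_one : ∀ x, g x ≤ 1
  logc : ∀ x y, ∀ s t : ℝ, 0 < s → 0 < t → s + t = 1 → g x ^ s * g y ^ t ≤ g (s • x + t • y)
  bdd : ∃ ρ : ℝ, 0 < ρ ∧ ∀ x, g x ≠ 0 → ‖x‖ ≤ ρ

variable {g : E → ℝ}

theorem LC.ray_bdd (h : LC g) (k : ℕ) {x : E} (hx : x ≠ 0) :
    ∃ M : ℝ, 0 ≤ M ∧ (∀ R : ℝ, 0 < R → R⁻¹ ^ (k + 1) * g (R⁻¹ • x) ≤ M) ∧
      ∃ r : ℝ, 0 < r ∧ ∀ R : ℝ, 0 < R → R ≤ r → g (R⁻¹ • x) = 0 := by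
  obtain ⟨ρ, hρ, hb⟩ := h.bdd
  have hn : 0 < ‖x‖ := norm_pos_iff.2 hx
  have key : ∀ R : ℝ, 0 < R → g (R⁻¹ • x) ≠ 0 → R⁻¹ ≤ ρ / ‖x‖ := by
    intro R hR hg
    have h1 := hb _ hg
    rw [norm_smul, Real.norm_of_nonneg (by positivity)] at h1
    rwa [le_div_iff₀ hn]
  refine ⟨(ρ / ‖x‖) ^ (k + 1), by positivity, ?_, ‖x‖ / (2 * ρ), by positivity, ?_⟩
  · intro R hR
    by_cases hg : g (R⁻¹ • x) = 0
    · rw [hg, mul_zero]; positivity
    · have h2 := key R hR hg
      calc R⁻¹ ^ (k + 1) * g (R⁻¹ • x) ≤ (ρ / ‖x‖) ^ (k + 1) * 1 := by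
            gcongr
            · exact h.nonneg _
            · exact h.le_one _
        _ = _ := mul_one _
  · intro R hR hle
    by_contra hg
    have h2 := key R hR hg
    have h3 : (‖x‖ / (2 * ρ))⁻¹ ≤ R⁻¹ := inv_anti₀ hR hle
    rw [inv_div] at h3
    have h4 : 2 * ρ / ‖x‖ ≤ ρ / ‖x‖ := h3.trans h2
    rw [div_le_div_iff_of_pos_right hn] at h4
    linarith

theorem LC.mm_ne_top (h : LC g) {k : ℕ} (hk : 1 ≤ k) {x : E} (hx : x ≠ 0) : mm k g x ≠ ∞ := by
  obtain ⟨-, -, -, r, hr, hr0⟩ := h.ray_bdd k hx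
  have hle : mm k g x ≤ ENNReal.ofReal (r⁻¹ ^ k) := by
    rw [← tail k hk hr]
    unfold mm mom
    rw [← lintegral_indicator measurableSet_Ioi, ← lintegral_indicator measurableSet_Ioi]
    refine lintegral_mono fun R => ?_
    by_cases hR : R ∈ Ioi r
    · rw [indicator_of_mem hR, indicator_of_mem (mem_Ioi.2 (hr.trans hR))]
      apply ENNReal.ofReal_le_ofReal
      have hR0 : 0 < R := hr.trans hR
      have h1 := h.le_one (R⁻¹ • x)
      have h2 : 0 ≤ (k : ℝ) * R⁻¹ ^ (k + 1) := by positivity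
      nlinarith
    · rw [indicator_of_notMem hR]
      by_cases hR0 : R ∈ Ioi (0 : ℝ)
      · rw [indicator_of_mem hR0]
        beta_reduce
        rw [hr0 R hR0 (not_lt.1 hR), mul_zero, ENNReal.ofReal_zero]
      · rw [indicator_of_notMem hR0]
  exact ne_top_of_le_ne_top ENNReal.ofReal_ne_top hle

theorem ray_meas (hg : Measurable g) (x : E) : Measurable fun R : ℝ => g (R⁻¹ • x) :=
  hg.comp (measurable_inv.smul_const x)

theorem LC.adm_add (h : LC g) {k : ℕ} (hk : 1 ≤ k) {x y : E} {a b : ℝ} (ha : 0 < a) (hb : 0 < b)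
    (h1 : ENNReal.ofReal (a⁻¹ ^ k) ≤ mm k g x) (h2 : ENNReal.ofReal (b⁻¹ ^ k) ≤ mm k g y) :
    ENNReal.ofReal ((a + b)⁻¹ ^ k) ≤ mm k g (x + y) := by
  by_cases hx : x = 0
  · rw [hx, zero_add]
    refine le_trans (ENNReal.ofReal_le_ofReal ?_) h2
    have : (a + b)⁻¹ ≤ b⁻¹ := inv_anti₀ hb (by linarith)
    gcongr
  by_cases hy : y = 0
  · rw [hy, add_zero]
    refine le_trans (ENNReal.ofReal_le_ofReal ?_) h1
    have : (a + b)⁻¹ ≤ a⁻¹ := inv_anti₀ ha (by linarith)
    gcongr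
  obtain ⟨M1, hM1, hb1, -⟩ := h.ray_bdd k hx
  obtain ⟨M2, hM2, hb2, -⟩ := h.ray_bdd k hy
  refine ball_ineq (M := max M1 M2) hk (ray_meas h.meas x) (ray_meas h.meas y)
    (ray_meas h.meas (x + y)) (fun R => h.nonneg _) (fun R => h.nonneg _) (fun R => h.nonneg _)
    ?_ (fun R hR => (hb1 R hR).trans (le_max_left _ _))
    (fun R hR => (hb2 R hR).trans (le_max_right _ _)) ha hb h1 h2
  intro R S hR hS _ _
  have hRS : 0 < R + S := by positivity
  have h3 := h.logc (R⁻¹ • x) (S⁻¹ • y) (R / (R + S)) (S / (R + S)) (by positivity)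
    (by positivity) (by field_simp)
  have e1 : (R / (R + S)) • R⁻¹ • x + (S / (R + S)) • S⁻¹ • y = (R + S)⁻¹ • (x + y) := by
    rw [smul_smul, smul_smul, smul_add]
    congr 2
    · field_simp
    · field_simp
  rwa [e1] at h3

theorem adm_smul (hg : Measurable g) {k : ℕ} {x : E} {a c : ℝ} (hc : 0 < c)
    (h1 : ENNReal.ofReal (a⁻¹ ^ k) ≤ mm k g x) :
    ENNReal.ofReal ((c * a)⁻¹ ^ k) ≤ mm k g (c • x) := by
  rw [mm_smul k hg hc, mul_inv, mul_pow, ENNReal.ofReal_mul (by positivity)]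
  gcongr

theorem LC.adm_sum (h : LC g) {k : ℕ} (hk : 1 ≤ k) {J : Type*} (T : Finset J) (hT : T.Nonempty)
    (x : J → E) (a : J → ℝ) (ha : ∀ j, 0 < a j)
    (hadm : ∀ j, ENNReal.ofReal ((a j)⁻¹ ^ k) ≤ mm k g (x j)) :
    ENNReal.ofReal ((∑ j ∈ T, a j)⁻¹ ^ k) ≤ mm k g (∑ j ∈ T, x j) := by
  classical
  induction hT using Finset.Nonempty.cons_induction with
  | singleton i => simpa using hadm i
  | cons i s hi hs ih =>
    rw [Finset.sum_cons, Finset.sum_cons]
    exact h.adm_add hk (ha i) (Finset.sum_pos (fun j _ => ha j) hs) (hadm i) ih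

/-- `exp (-N)` is log-concave. -/
theorem LC.phi_prod (h : LC g) {k : ℕ} (hk : 1 ≤ k) {J : Type*} [Fintype J] [Nonempty J]
    (c : J → ℝ) (hc : ∀ j, 0 < c j) (y : J → E) :
    ∏ j, (phi k (mm k g (y j))) ^ c j ≤ phi k (mm k g (∑ j, c j • y j)) := by
  by_cases hz : ∃ j, mm k g (y j) = 0
  · obtain ⟨j, hj⟩ := hz
    rw [Finset.prod_eq_zero (Finset.mem_univ j)]
    · exact bot_le
    · rw [hj]
      unfold phi
      rw [if_pos rfl, ENNReal.zero_rpow_of_pos (hc j)]
  push Not at hz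
  set N : J → ℝ := fun j => ((mm k g (y j)) ^ (-(1 : ℝ) / k)).toReal with hN
  have N0 : ∀ j, 0 ≤ N j := fun j => ENNReal.toReal_nonneg
  have e1 : ∏ j, (phi k (mm k g (y j))) ^ c j = ENNReal.ofReal (Real.exp (-∑ j, c j * N j)) := by
    have : ∀ j, (phi k (mm k g (y j))) ^ c j = ENNReal.ofReal (Real.exp (-(c j * N j))) := by
      intro j
      unfold phi
      rw [if_neg (hz j), ENNReal.ofReal_rpow_of_pos (Real.exp_pos _), ← Real.exp_mul]
      congr 2
      simp only [hN]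
      ring
    simp_rw [this]
    rw [← ENNReal.ofReal_prod_of_nonneg fun j _ => (Real.exp_pos _).le, ← Real.exp_sum,
      Finset.sum_neg_distrib]
  rw [e1]
  have key : ∀ ε : ℝ, 0 < ε → ENNReal.ofReal (Real.exp (-∑ j, c j * (N j + ε))) ≤
      phi k (mm k g (∑ j, c j • y j)) := by
    intro ε hε
    have hadm : ∀ j, ENNReal.ofReal ((N j + ε)⁻¹ ^ k) ≤ mm k g (y j) := by
      intro j
      by_cases ht : mm k g (y j) = ∞
      · rw [ht]; exact le_top
      · obtain ⟨a, ha, hae⟩ := exists_pow hk (hz j) ht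
        have : N j = a := by
          simp only [hN]
          rw [hae, pow_rpow hk ha, ENNReal.toReal_ofReal ha.le]
        rw [this, hae]
        apply ENNReal.ofReal_le_ofReal
        have : (a + ε)⁻¹ ≤ a⁻¹ := inv_anti₀ ha (by linarith)
        gcongr
    have hpos : ∀ j, 0 < c j * (N j + ε) := fun j => mul_pos (hc j) (by linarith [N0 j])
    have h3 := h.adm_sum hk Finset.univ Finset.univ_nonempty (fun j => c j • y j)
      (fun j => c j * (N j + ε)) hpos (fun j => adm_smul h.meas (hc j) (hadm j))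
    have hsp : 0 < ∑ j, c j * (N j + ε) :=
      Finset.sum_pos (fun j _ => hpos j) Finset.univ_nonempty
    rw [← phi_pow hk hsp]
    exact phi_mono hk h3
  have hlim : Tendsto (fun ε : ℝ => ENNReal.ofReal (Real.exp (-∑ j, c j * (N j + ε))))
      (𝓝[>] 0) (𝓝 (ENNReal.ofReal (Real.exp (-∑ j, c j * (N j + 0))))) := by
    apply Tendsto.mono_left _ nhdsWithin_le_nhds
    apply Continuous.tendsto
    exact ENNReal.continuous_ofReal.comp (by fun_prop)
  simp only [add_zero] at hlim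
  refine le_of_tendsto hlim ?_
  filter_upwards [self_mem_nhdsWithin] with ε hε
  exact key ε hε

/-- Comparison of the gauges of different degrees. -/
theorem LC.phi_comp (h : LC g) {k d : ℕ} (hk : 1 ≤ k) (hkd : k ≤ d) (x : E) :
    phi k (mm k g x) ≤ phi d (mm d g x) := by
  have hd : 1 ≤ d := hk.trans hkd
  have key : ∀ a : ℝ, 0 < a → ENNReal.ofReal (a⁻¹ ^ k) ≤ mm k g x →
      ENNReal.ofReal (a⁻¹ ^ d) ≤ mm d g x := fun a ha ham =>
    mom_mono hk hkd (ray_meas h.meas x) (fun R => h.nonneg _) (fun R => h.le_one _) ha ham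
  by_cases h0 : mm k g x = 0
  · rw [h0]; unfold phi; rw [if_pos rfl]; exact bot_le
  by_cases ht : mm k g x = ∞
  · have : mm d g x = ∞ := by
      apply ENNReal.eq_top_of_forall_nnreal_le
      intro r
      by_cases hr : r = 0
      · rw [hr]; exact bot_le
      · obtain ⟨a, ha, hae⟩ := exists_pow hd (m := (r : ℝ≥0∞)) (by simpa using hr)
          ENNReal.coe_ne_top
        rw [hae]
        apply key a ha
        rw [ht]
        exact le_top
    rw [this, phi_top hd]
    exact phi_le_one _ _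
  · obtain ⟨a, ha, hae⟩ := exists_pow hk h0 ht
    rw [hae, phi_pow hk ha, ← phi_pow hd ha]
    exact phi_mono hd (key a ha hae.ge)

/-- At the origin. -/
theorem LC.phi_zero (h : LC g) {d : ℕ} (hd : 1 ≤ d) :
    ENNReal.ofReal (g 0) ≤ phi d (mm d g 0) := by
  by_cases h0 : g 0 = 0
  · rw [h0, ENNReal.ofReal_zero]; exact bot_le
  have hpos : 0 < g 0 := lt_of_le_of_ne (h.nonneg 0) (Ne.symm h0)
  have hd' : (0 : ℝ) < d := by exact_mod_cast hd
  have hne : mm d g (0 : E) ≠ 0 := by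
    intro hz
    unfold mm mom at hz
    simp only [smul_zero] at hz
    rw [lintegral_eq_zero_iff (by fun_prop)] at hz
    have h5 : ∀ᵐ R ∂(volume.restrict (Ioi (0 : ℝ))), False := by
      filter_upwards [hz, ae_restrict_mem measurableSet_Ioi] with R hR hR0
      have hR1 : (0 : ℝ) < R := hR0
      simp only [Pi.zero_apply, ENNReal.ofReal_eq_zero] at hR
      have : 0 < (d : ℝ) * R⁻¹ ^ (d + 1) * g 0 := by positivity
      linarith
    rw [Filter.eventually_false_iff_eq_bot, ae_eq_bot, Measure.restrict_eq_zero] at h5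
    simp at h5
  have htop : mm d g (0 : E) = ∞ := by
    by_contra ht
    have h1 := mm_smul d h.meas (c := 2) two_pos (0 : E)
    rw [smul_zero] at h1
    obtain ⟨a, ha, hae⟩ := exists_pow hd hne ht
    rw [hae, ← ENNReal.ofReal_mul (by positivity),
      ENNReal.ofReal_eq_ofReal_iff (by positivity) (by positivity)] at h1
    have h2 : (2 : ℝ)⁻¹ ^ d < 1 := pow_lt_one₀ (by norm_num) (by norm_num) (by omega)
    have h3 : 0 < a⁻¹ ^ d := by positivity
    nlinarith
  rw [htop, phi_top hd, ← ENNReal.ofReal_one]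
  exact ENNReal.ofReal_le_ofReal (h.le_one 0)

end space

end Pool.Agent.R758.Cov
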