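import Mathlib
import Pool.Agent.R758.Cov.Sub

/-!
The inequality for the marginals of log-concave functions, and the functional form of the theorem.
-/

set_option autoImplicit false
set_option linter.unusedSectionVars false

open MeasureTheory Set Filter Topology
open scoped ENNReal

namespace Pool.Agent.R758.Cov

variable {ι : Type*} [Fintype ι] [DecidableEq ι]

theorem updateFinset_smul (τ : Finset ι) (c : ℝ) (y : τ → ℝ) :
    Function.updateFinset (0 : ι → ℝ) τ (c • y) = c • Function.updateFinset (0 : ι → ℝ) τ y := by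
  ext i
  simp only [Function.updateFinset, Pi.smul_apply, smul_eq_mul, Pi.zero_apply]
  split_ifs <;> simp

theorem mm_sub (k : ℕ) (g : (ι → ℝ) → ℝ) (τ : Finset ι) (y : τ → ℝ) :
    mm k (fun y : τ → ℝ => g (Function.updateFinset 0 τ y)) y =
      mm k g (Function.updateFinset 0 τ y) := by
  unfold mm
  congr 1
  ext R
  beta_reduce
  rw [updateFinset_smul]

theorem updateFinset_ne_zero {τ : Finset ι} {y : τ → ℝ} (hy : y ≠ 0) :
    Function.updateFinset (0 : ι → ℝ) τ y ≠ 0 := by
  intro h
  apply hy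
  ext i
  have := congrFun h i
  simpa [Function.updateFinset] using this

theorem gauge_marg {g : (ι → ℝ) → ℝ} (h : LC g) (τ : Finset ι) (hτ : 1 ≤ τ.card) :
    lmarginal (fun _ => volume) τ (fun x => phi τ.card (mm τ.card g x)) 0 =
      (τ.card.factorial : ℝ≥0∞) * lmarginal (fun _ => volume) τ (fun x => ENNReal.ofReal (g x)) 0
      := by
  unfold lmarginal
  have hfin : Module.finrank ℝ (τ → ℝ) = τ.card := by
    rw [Module.finrank_fintype_fun_eq_card, Fintype.card_coe]
  have := gauge_int (volume : Measure (τ → ℝ))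
    (g := fun y : τ → ℝ => g (Function.updateFinset 0 τ y))
    (h.meas.comp measurable_updateFinset) (fun x => h.nonneg _) hτ hfin (by
      intro y hy
      rw [mm_sub]
      exact h.mm_ne_top hτ (updateFinset_ne_zero hy))
  simp_rw [mm_sub] at this
  exact this

/-- The functional inequality for a `q`-cover of `σ`. -/
theorem cover_fun {g : (ι → ℝ) → ℝ} (h : LC g) {J : Type*} [Fintype J] [DecidableEq J]
    (σ : Finset ι) (hσ : 1 ≤ σ.card) (τ : J → Finset ι) (hτ : ∀ j, τ j ⊆ σ) (q : ℕ) (hq : 1 ≤ q)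
    (hcov : ∀ i ∈ σ, (Finset.univ.filter fun j => i ∈ τ j).card = q) :
    ∏ j, (((τ j).card.factorial : ℝ≥0∞) *
        lmarginal (fun _ => volume) (τ j) (fun x => ENNReal.ofReal (g x)) 0) ≤
      ((σ.card.factorial : ℝ≥0∞) *
        lmarginal (fun _ => volume) σ (fun x => ENNReal.ofReal (g x)) 0) ^ q := by
  have hq' : (0 : ℝ) < q := by exact_mod_cast hq
  set d := σ.card with hd
  set F : (ι → ℝ) → ℝ≥0∞ := fun x => phi d (mm d g x) with hF
  have hFm : Measurable F := (phi_measurable d).comp (mm_measurable d h.meas)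
  have hJ : Nonempty J := by
    obtain ⟨i, hi⟩ := Finset.card_pos.1 hσ
    have h1 := hcov i hi
    by_contra hcon
    rw [not_nonempty_iff] at hcon
    rw [Finset.univ_eq_empty, Finset.filter_empty, Finset.card_empty] at h1
    omega
  have hrbl := rbl (fun _ : J => (q : ℝ)⁻¹) (fun _ => by positivity) F (fun _ => F) hFm
    (fun _ => hFm) σ τ hτ (by
      intro i hi
      rw [Finset.sum_const, hcov i hi, nsmul_eq_mul, mul_inv_cancel₀ hq'.ne']) (fun _ => 0) (by
      intro y _
      exact h.phi_prod hσ (fun _ : J => (q : ℝ)⁻¹) (fun _ => by positivity) y)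
  simp only [smul_zero, Finset.sum_const_zero] at hrbl
  have hσF : lmarginal (fun _ => volume) σ F 0 = (d.factorial : ℝ≥0∞) *
      lmarginal (fun _ => volume) σ (fun x => ENNReal.ofReal (g x)) 0 := gauge_marg h σ hσ
  have hτF : ∀ j, ((τ j).card.factorial : ℝ≥0∞) *
      lmarginal (fun _ => volume) (τ j) (fun x => ENNReal.ofReal (g x)) 0 ≤
      lmarginal (fun _ => volume) (τ j) F 0 := by
    intro j
    by_cases h0 : (τ j).card = 0
    · rw [h0]
      have : τ j = ∅ := Finset.card_eq_zero.1 h0
      rw [this, lmarginal_empty, lmarginal_empty]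
      simp only [Nat.factorial_zero, Nat.cast_one, one_mul]
      exact h.phi_zero hσ
    · rw [← gauge_marg h (τ j) (by omega)]
      apply lmarginal_mono
      intro x
      exact h.phi_comp (by omega) (Finset.card_le_card (hτ j)) x
  rw [← hσF]
  calc ∏ j, (((τ j).card.factorial : ℝ≥0∞) *
        lmarginal (fun _ => volume) (τ j) (fun x => ENNReal.ofReal (g x)) 0)
      ≤ ∏ j, lmarginal (fun _ => volume) (τ j) F 0 := Finset.prod_le_prod' fun j _ => hτF j
    _ = (∏ j, (lmarginal (fun _ => volume) (τ j) F 0) ^ (q : ℝ)⁻¹) ^ q := by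
        rw [← Finset.prod_pow]
        refine Finset.prod_congr rfl fun j _ => ?_
        rw [← ENNReal.rpow_natCast, ← ENNReal.rpow_mul, inv_mul_cancel₀ hq'.ne', ENNReal.rpow_one]
    _ ≤ _ := by gcongr

/-- The marginal of the indicator of a convex body. -/
noncomputable def marg (K : Set (ι → ℝ)) (σ : Finset ι) : (ι → ℝ) → ℝ≥0∞ :=
  lmarginal (fun _ => volume) σᶜ (K.indicator 1)

variable {K : Set (ι → ℝ)}

theorem ind_meas (hK : IsCompact K) : Measurable (K.indicator (1 : (ι → ℝ) → ℝ≥0∞)) :=
  measurable_one.indicator hK.measurableSet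

theorem marg_meas (hK : IsCompact K) (σ : Finset ι) : Measurable (marg K σ) :=
  (ind_meas hK).lmarginal _

theorem marg_eq (hK : IsCompact K) (σ : Finset ι) (x : ι → ℝ) :
    marg K σ x = volume {z : (σᶜ : Finset ι) → ℝ | Function.updateFinset x σᶜ z ∈ K} := by
  unfold marg lmarginal
  have h1 : ∀ z : (σᶜ : Finset ι) → ℝ,
      K.indicator (1 : (ι → ℝ) → ℝ≥0∞) (Function.updateFinset x σᶜ z) =
      {z : (σᶜ : Finset ι) → ℝ | Function.updateFinset x σᶜ z ∈ K}.indicator 1 z := by
    intro z
    by_cases hz : Function.updateFinset x σᶜ z ∈ K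
    · rw [indicator_of_mem hz, indicator_of_mem (by exact hz)]; rfl
    · rw [indicator_of_notMem hz, indicator_of_notMem (by exact hz)]
  simp_rw [h1]
  rw [lintegral_indicator_one]
  · rfl
  · exact measurable_updateFinset hK.measurableSet

theorem marg_zero (hK : IsCompact K) (σ : Finset ι) (x : ι → ℝ) (h : marg K σ x ≠ 0) :
    ∃ z ∈ K, ∀ i ∈ σ, z i = x i := by
  rw [marg_eq hK] at h
  obtain ⟨z, hz⟩ := nonempty_of_measure_ne_zero h
  refine ⟨_, hz, fun i hi => ?_⟩
  simp [Function.updateFinset, hi]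

theorem marg_bdd (hK : IsCompact K) (σ : Finset ι) :
    ∃ B : ℝ≥0∞, B ≠ ∞ ∧ ∀ x, marg K σ x ≤ B := by
  set π : (ι → ℝ) → ((σᶜ : Finset ι) → ℝ) := fun x i => x i with hπ
  have hc : Continuous π := by fun_prop
  refine ⟨volume (π '' K), (hK.image hc).measure_lt_top.ne, fun x => ?_⟩
  rw [marg_eq hK]
  apply measure_mono
  intro z hz
  refine ⟨_, hz, ?_⟩
  ext i
  have : (i : ι) ∈ σᶜ := i.2
  simp [hπ, Function.updateFinset]

theorem marg_logc (hK : IsCompact K) (hc : Convex ℝ K) (σ : Finset ι) (x y : ι → ℝ) (s t : ℝ)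
    (hs : 0 < s) (ht : 0 < t) (hst : s + t = 1) :
    marg K σ x ^ s * marg K σ y ^ t ≤ marg K σ (s • x + t • y) := by
  have hm := ind_meas hK
  have h := rbl (J := Bool) (fun b => if b then s else t) (fun b => by split_ifs <;> assumption)
    (K.indicator 1) (fun _ => K.indicator 1) hm (fun _ => hm) σᶜ (fun _ => σᶜ) (fun _ => subset_rfl)
    (by
      intro i hi
      simp [hi, hst]) (fun b => if b then x else y) (by
      intro z _
      simp only [Fintype.prod_bool, Fintype.sum_bool, if_true, Bool.false_eq_true, if_false]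
      by_cases h1 : z true ∈ K
      · by_cases h2 : z false ∈ K
        · rw [indicator_of_mem (hc h1 h2 hs.le ht.le hst), indicator_of_mem h1,
            indicator_of_mem h2]
          simp
        · rw [indicator_of_notMem h2, ENNReal.zero_rpow_of_pos ht, mul_zero]
          exact bot_le
      · rw [indicator_of_notMem h1, ENNReal.zero_rpow_of_pos hs, zero_mul]
        exact bot_le)
  simp only [Fintype.prod_bool, Fintype.sum_bool, if_true, Bool.false_eq_true, if_false] at h
  exact h

theorem marg_union (hK : IsCompact K) (σ τ : Finset ι) (hτ : τ ⊆ σ) (x : ι → ℝ) :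
    lmarginal (fun _ => volume) (σ \ τ) (marg K σ) x = marg K τ x := by
  unfold marg
  have hdis : Disjoint (σ \ τ) σᶜ := by
    rw [Finset.disjoint_left]
    intro i hi
    rw [Finset.mem_compl, not_not]
    exact (Finset.mem_sdiff.1 hi).1
  rw [← lmarginal_union _ _ (ind_meas hK) hdis]
  congr 1
  ext i
  simp only [Finset.mem_union, Finset.mem_sdiff, Finset.mem_compl]
  constructor
  · rintro (⟨_, h⟩ | h)
    · exact h
    · exact fun h' => h (hτ h')
  · intro h
    by_cases hi : i ∈ σ
    · exact Or.inl ⟨hi, h⟩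
    · exact Or.inr hi

/-- The normalised marginal, restricted to the coordinate subspace. -/
noncomputable def gg (K : Set (ι → ℝ)) (σ : Finset ι) (M : ℝ≥0∞) (x : ι → ℝ) : ℝ :=
  if ∀ i, i ∉ σ → x i = 0 then (marg K σ x / M).toReal else 0

theorem gg_LC (hK : IsCompact K) (hc : Convex ℝ K) (σ : Finset ι) {M : ℝ≥0∞} (hM0 : M ≠ 0)
    (hMt : M ≠ ∞) (hM : ∀ x, marg K σ x ≤ M) : LC (gg K σ M) := by
  classical
  have hle : ∀ x, marg K σ x / M ≤ 1 := fun x => ENNReal.div_le_of_le_mul (by
    rw [one_mul]; exact hM x)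
  have hsub : MeasurableSet {x : ι → ℝ | ∀ i, i ∉ σ → x i = 0} := by
    have : {x : ι → ℝ | ∀ i, i ∉ σ → x i = 0} = ⋂ i, ⋂ (_ : i ∉ σ), {x : ι → ℝ | x i = 0} := by
      ext x; simp
    rw [this]
    exact MeasurableSet.iInter fun i => MeasurableSet.iInter fun _ =>
      measurableSet_eq_fun (measurable_pi_apply i) measurable_const
  refine ⟨?_, ?_, ?_, ?_, ?_⟩
  · exact Measurable.ite hsub ((marg_meas hK σ).div_const M).ennreal_toReal measurable_const
  · intro x
    unfold gg
    split_ifs
    · exact ENNReal.toReal_nonneg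
    · exact le_rfl
  · intro x
    unfold gg
    split_ifs
    · have := ENNReal.toReal_mono ENNReal.one_ne_top (hle x)
      simpa using this
    · exact zero_le_one
  · intro x y s t hs ht hst
    unfold gg
    by_cases hx : ∀ i, i ∉ σ → x i = 0
    · by_cases hy : ∀ i, i ∉ σ → y i = 0
      · have hxy : ∀ i, i ∉ σ → (s • x + t • y) i = 0 := by
          intro i hi
          simp [hx i hi, hy i hi]
        rw [if_pos hx, if_pos hy, if_pos hxy, ENNReal.toReal_rpow, ENNReal.toReal_rpow,
          ← ENNReal.toReal_mul]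
        apply ENNReal.toReal_mono (ne_top_of_le_ne_top ENNReal.one_ne_top (hle _))
        rw [ENNReal.div_rpow_of_nonneg _ _ hs.le, ENNReal.div_rpow_of_nonneg _ _ ht.le,
          div_eq_mul_inv, div_eq_mul_inv, div_eq_mul_inv]
        have e1 : (M ^ s)⁻¹ * (M ^ t)⁻¹ = M⁻¹ := by
          rw [← ENNReal.mul_inv (Or.inr (ENNReal.rpow_ne_top_of_nonneg ht.le hMt))
            (Or.inl (ENNReal.rpow_ne_top_of_nonneg hs.le hMt)), ← ENNReal.rpow_add _ _ hM0 hMt,
            hst, ENNReal.rpow_one]
        calc marg K σ x ^ s * (M ^ s)⁻¹ * (marg K σ y ^ t * (M ^ t)⁻¹)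
            = (marg K σ x ^ s * marg K σ y ^ t) * ((M ^ s)⁻¹ * (M ^ t)⁻¹) := by ring
          _ ≤ marg K σ (s • x + t • y) * M⁻¹ := by
              rw [e1]
              gcongr
              exact marg_logc hK hc σ x y s t hs ht hst
      · rw [if_neg hy, Real.zero_rpow ht.ne', mul_zero]
        split_ifs
        · exact ENNReal.toReal_nonneg
        · exact le_rfl
    · rw [if_neg hx, Real.zero_rpow hs.ne', zero_mul]
      split_ifs
      · exact ENNReal.toReal_nonneg
      · exact le_rfl
  · obtain ⟨ρ, hρ⟩ := hK.isBounded.exists_norm_le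
    refine ⟨max ρ 1, by positivity, fun x hx => ?_⟩
    unfold gg at hx
    split_ifs at hx with hxs
    · have h1 : marg K σ x ≠ 0 := by
        intro h
        rw [h, ENNReal.zero_div, ENNReal.toReal_zero] at hx
        exact hx rfl
      obtain ⟨z, hz, hzx⟩ := marg_zero hK σ x h1
      have h2 := hρ z hz
      refine le_trans ?_ (le_max_left _ _)
      have hρ0 : 0 ≤ ρ := (norm_nonneg z).trans h2
      rw [pi_norm_le_iff_of_nonneg hρ0]
      intro i
      by_cases hi : i ∈ σ
      · rw [← hzx i hi]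
        exact (norm_le_pi_norm z i).trans h2
      · rw [hxs i hi, norm_zero]
        exact hρ0
    · exact absurd rfl hx

theorem gg_marg (hK : IsCompact K) (σ τ : Finset ι) (hτ : τ ⊆ σ) {M : ℝ≥0∞}
    (hM : ∀ x, marg K σ x ≤ M) :
    lmarginal (fun _ => volume) τ (fun x => ENNReal.ofReal (gg K σ M x)) 0 =
      lmarginal (fun _ => volume) τ (marg K σ) 0 / M := by
  have hle : ∀ x, marg K σ x / M ≤ 1 := fun x => ENNReal.div_le_of_le_mul (by
    rw [one_mul]; exact hM x)
  unfold lmarginal
  simp_rw [div_eq_mul_inv]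
  rw [← lintegral_mul_const]
  · refine lintegral_congr fun y => ?_
    have h1 : ∀ i, i ∉ σ → Function.updateFinset (0 : ι → ℝ) τ y i = 0 := by
      intro i hi
      have : i ∉ τ := fun h => hi (hτ h)
      simp [Function.updateFinset, this]
    unfold gg
    rw [if_pos h1, ENNReal.ofReal_toReal (ne_top_of_le_ne_top ENNReal.one_ne_top (hle _)),
      div_eq_mul_inv]
  · exact (marg_meas hK σ).comp measurable_updateFinset

end Pool.Agent.R758.Cov
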